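import Pool.Agent.Run7.h969.WS.GDefs
import Pool.Agent.Run7.h969.GS.Iter

/-!
Gauges: elementary properties, sums, and integrals.
-/

set_option autoImplicit false

open MeasureTheory Set Filter Topology
open scoped ENNReal

namespace Pool.Agent.Run7.h969.WS

open H459R3.NS Pool.Agent.Run7.h782 Pool.Agent.Run7.h782.GD Pool.Agent.Run7.h782.GS
open Pool.Agent.Run7.h969.GS

namespace Gauge

variable {φ : ℝ → ℝ} (h : Gauge φ)
include h

theorem scale {l x : ℝ} (hl : 0 ≤ l) (hl1 : l ≤ 1) (hx : 0 ≤ x) : φ (l * x) ≤ l * φ x := by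
  have h1 := h.conv.2 (show x ∈ Ici (0 : ℝ) from hx) (mem_Ici.2 (le_refl (0 : ℝ))) hl
    (show 0 ≤ 1 - l by linarith) (by ring)
  simpa [h.zero, smul_eq_mul] using h1

theorem mono {x y : ℝ} (hx : 0 ≤ x) (hxy : x ≤ y) : φ x ≤ φ y := by
  rcases hx.eq_or_lt with h0 | hx'
  · rw [← h0, h.zero]
    exact h.nonneg y (hx.trans hxy)
  · have hy : 0 < y := lt_of_lt_of_le hx' hxy
    have h1 := h.scale (l := x / y) (x := y) (by positivity) ((div_le_one hy).2 hxy) hy.le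
    rw [div_mul_cancel₀ _ hy.ne'] at h1
    exact h1.trans (mul_le_of_le_one_left (h.nonneg y hy.le) ((div_le_one hy).2 hxy))

theorem add_le {x y : ℝ} (hx : 0 ≤ x) (hy : 0 ≤ y) : φ (x + y) ≤ φ (2 * x) + φ (2 * y) := by
  rcases le_total x y with h1 | h1
  · exact (h.mono (by positivity) (by linarith)).trans
      (le_add_of_nonneg_left (h.nonneg _ (by positivity)))
  · exact (h.mono (by positivity) (by linarith)).trans
      (le_add_of_nonneg_right (h.nonneg _ (by positivity)))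

theorem contOn : ContinuousOn φ (Ici 0) := by
  refine h.conv.continuousOn_Ici ?_
  have h1 : Tendsto φ (𝓝[Ici 0] 0) (𝓝 0) := by
    have hub : Tendsto (fun x : ℝ => x * φ 1) (𝓝[Ici 0] 0) (𝓝 0) := by
      have : Tendsto (fun x : ℝ => x * φ 1) (𝓝 0) (𝓝 (0 * φ 1)) :=
        (continuous_id.mul continuous_const).tendsto 0
      rw [zero_mul] at this
      exact this.mono_left nhdsWithin_le_nhds
    refine tendsto_of_tendsto_of_tendsto_of_le_of_le' tendsto_const_nhds hub ?_ ?_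
    · filter_upwards [self_mem_nhdsWithin] with x hx
      exact h.nonneg x hx
    · filter_upwards [self_mem_nhdsWithin, nhdsWithin_le_nhds (ge_mem_nhds (zero_lt_one' ℝ))]
        with x hx hx1
      have := h.scale (l := x) (x := 1) hx hx1 zero_le_one
      rwa [mul_one] at this
  rw [ContinuousWithinAt, h.zero]
  exact h1

theorem cont : Continuous fun x => φ (max x 0) :=
  h.contOn.comp_continuous (continuous_id.max continuous_const) fun x =>
    mem_Ici.2 (le_max_right x 0)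

/-- Near `0` the gauge is below any multiple of the square. -/
theorem quad_small {η : ℝ} (hη : 0 < η) : ∃ r > 0, ∀ x, 0 ≤ x → x ≤ r → φ x ≤ η * x ^ 2 := by
  have h1 := h.small.eventually_le_const hη
  obtain ⟨u, hu0, hu⟩ := mem_nhdsGT_iff_exists_Ioc_subset.1 h1
  refine ⟨u, hu0, fun x hx hxu => ?_⟩
  rcases hx.eq_or_lt with h0 | hx'
  · rw [← h0, h.zero]
    simp
  · have h2 : φ x / x ^ 2 ≤ η := hu ⟨hx', hxu⟩
    rwa [div_le_iff₀ (by positivity)] at h2

theorem jensen (n : ℕ) : ∀ y : ℕ → ℝ, (∀ i, 0 ≤ y i) →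
    φ (∑ i ∈ Finset.range n, y i)
      ≤ ∑ i ∈ Finset.range n, (1 / 2) ^ (i + 1) * φ (2 ^ (i + 1) * y i) := by
  induction n with
  | zero => intro y _; simp [h.zero]
  | succ n ih =>
    intro y hy
    rw [Finset.sum_range_succ', Finset.sum_range_succ']
    have h1 := ih (fun i => 2 * y (i + 1)) fun i => mul_nonneg zero_le_two (hy _)
    rw [← Finset.mul_sum] at h1
    have h0 : 0 ≤ ∑ i ∈ Finset.range n, y (i + 1) := Finset.sum_nonneg fun i _ => hy _
    have h2 := h.conv.2 (show 2 * ∑ i ∈ Finset.range n, y (i + 1) ∈ Ici (0 : ℝ) from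
      mul_nonneg zero_le_two h0) (show 2 * y 0 ∈ Ici (0 : ℝ) from mul_nonneg zero_le_two (hy 0))
      (show (0 : ℝ) ≤ 1 / 2 by norm_num) (show (0 : ℝ) ≤ 1 / 2 by norm_num) (by norm_num)
    simp only [smul_eq_mul] at h2
    have e1 : 1 / 2 * (2 * ∑ i ∈ Finset.range n, y (i + 1)) + 1 / 2 * (2 * y 0)
        = ∑ i ∈ Finset.range n, y (i + 1) + y 0 := by ring
    rw [e1] at h2
    refine h2.trans (add_le_add ?_ (by simp))
    refine (mul_le_mul_of_nonneg_left h1 (by norm_num)).trans (le_of_eq ?_)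
    rw [Finset.mul_sum]
    refine Finset.sum_congr rfl fun i _ => ?_
    have e2 : (2 : ℝ) ^ (i + 1) * (2 * y (i + 1)) = 2 ^ (i + 1 + 1) * y (i + 1) := by ring
    rw [e2]
    ring

end Gauge

/-- The gauge of an extended number. -/
noncomputable def Ph (φ : ℝ → ℝ) (x : ℝ≥0∞) : ℝ≥0∞ := ENNReal.ofReal (φ x.toReal)

section
variable {φ : ℝ → ℝ} (h : Gauge φ)
include h

theorem Ph_meas : Measurable (Ph φ) := by
  have e : Ph φ = fun x => ENNReal.ofReal (φ (max x.toReal 0)) := by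
    funext x
    rw [Ph, max_eq_left ENNReal.toReal_nonneg]
  rw [e]
  exact ENNReal.measurable_ofReal.comp (h.cont.measurable.comp ENNReal.measurable_toReal)

theorem Ph_mono {x y : ℝ≥0∞} (hxy : x ≤ y) (hy : y ≠ ⊤) : Ph φ x ≤ Ph φ y :=
  ENNReal.ofReal_le_ofReal (h.mono ENNReal.toReal_nonneg (ENNReal.toReal_mono hy hxy))

theorem Ph_add {x y : ℝ≥0∞} (hx : x ≠ ⊤) (hy : y ≠ ⊤) :
    Ph φ (x + y) ≤ Ph φ (2 * x) + Ph φ (2 * y) := by
  rw [Ph, Ph, Ph, ENNReal.toReal_add hx hy, ENNReal.toReal_mul, ENNReal.toReal_mul,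
    ← ENNReal.ofReal_add (h.nonneg _ (by positivity)) (h.nonneg _ (by positivity))]
  exact ENNReal.ofReal_le_ofReal (h.add_le ENNReal.toReal_nonneg ENNReal.toReal_nonneg)

theorem Ph_tsum {y : ℕ → ℝ≥0∞} (hy : ∑' i, y i ≠ ⊤) :
    Ph φ (∑' i, y i) ≤ ∑' i : ℕ, ENNReal.ofReal ((1 / 2) ^ (i + 1)) * Ph φ (2 ^ (i + 1) * y i) := by
  have hyi : ∀ i, y i ≠ ⊤ := fun i => ne_top_of_le_ne_top hy (ENNReal.le_tsum i)
  have h1 : Tendsto (fun n => ∑ i ∈ Finset.range n, y i) atTop (𝓝 (∑' i, y i)) :=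
    ENNReal.tendsto_nat_tsum _
  have h2 : Tendsto (fun n => Ph φ (∑ i ∈ Finset.range n, y i)) atTop (𝓝 (Ph φ (∑' i, y i))) := by
    have h3 := (ENNReal.tendsto_toReal hy).comp h1
    have h4 := (ENNReal.continuous_ofReal.tendsto _).comp ((h.cont.tendsto _).comp h3)
    rw [max_eq_left ENNReal.toReal_nonneg] at h4
    refine h4.congr fun n => ?_
    show ENNReal.ofReal (φ (max (∑ i ∈ Finset.range n, y i).toReal 0)) = _
    rw [max_eq_left ENNReal.toReal_nonneg]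
    rfl
  refine le_of_tendsto' h2 fun n => ?_
  have h5 := h.jensen n (fun i => (y i).toReal) fun i => ENNReal.toReal_nonneg
  rw [Ph, ENNReal.toReal_sum fun i _ => hyi i]
  refine (ENNReal.ofReal_le_ofReal h5).trans ?_
  rw [ENNReal.ofReal_sum_of_nonneg fun i _ => mul_nonneg (by positivity)
    (h.nonneg _ (by positivity))]
  refine le_trans (le_of_eq ?_) (ENNReal.sum_le_tsum (Finset.range n))
  refine Finset.sum_congr rfl fun i _ => ?_
  rw [ENNReal.ofReal_mul (by positivity), Ph]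
  congr 3
  rw [ENNReal.toReal_mul, ENNReal.toReal_pow]
  norm_num

/-- Integrals of the gauge of a sum. -/
theorem lint_tsum {μ : Measure ℝ} {y : ℕ → ℝ → ℝ≥0∞} (hm : ∀ i, AEMeasurable (y i) μ)
    (hf : ∀ᵐ s ∂μ, ∑' i, y i s ≠ ⊤) :
    ∫⁻ s, Ph φ (∑' i, y i s) ∂μ
      ≤ ∑' i : ℕ, ENNReal.ofReal ((1 / 2) ^ (i + 1)) * ∫⁻ s, Ph φ (2 ^ (i + 1) * y i s) ∂μ := by
  have h1 : ∀ i, AEMeasurable (fun s => Ph φ (2 ^ (i + 1) * y i s)) μ := fun i =>
    (Ph_meas h).comp_aemeasurable ((hm i).const_mul _)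
  calc ∫⁻ s, Ph φ (∑' i, y i s) ∂μ
      ≤ ∫⁻ s, ∑' i : ℕ, ENNReal.ofReal ((1 / 2) ^ (i + 1)) * Ph φ (2 ^ (i + 1) * y i s) ∂μ := by
        refine lintegral_mono_ae ?_
        filter_upwards [hf] with s hs
        exact Ph_tsum h hs
    _ = _ := by
        rw [lintegral_tsum fun i => (h1 i).const_mul _]
        exact tsum_congr fun i => lintegral_const_mul' _ _ ENNReal.ofReal_ne_top

/-- The contribution of one stage: the height is chosen after the mass. -/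
theorem stage {M η H : ℝ} (hM : 0 < M) (hη : 0 < η) (hH : 0 ≤ H) :
    ∀ᶠ ε in 𝓝[>] (0 : ℝ), ∀ (μ : Measure ℝ) (y : ℝ → ℝ≥0∞), (∀ᵐ s ∂μ, y s ≤ ENNReal.ofReal ε) →
      ∫⁻ s, y s ^ (2 : ℝ) ∂μ ≤ ENNReal.ofReal H →
        ∫⁻ s, Ph φ (ENNReal.ofReal M * y s) ∂μ ≤ ENNReal.ofReal η := by
  obtain ⟨r, hr, h1⟩ := h.quad_small (η := η / (M ^ 2 * (H + 1))) (by positivity)
  have h2 : ∀ᶠ ε in 𝓝[>] (0 : ℝ), ε ≤ r / M := nhdsWithin_le_nhds (ge_mem_nhds (by positivity))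
  filter_upwards [h2, self_mem_nhdsWithin] with ε hε hε0 μ y hy hyH
  have hε0' : 0 < ε := hε0
  have h3 : ∀ᵐ s ∂μ, Ph φ (ENNReal.ofReal M * y s)
      ≤ ENNReal.ofReal (η / (H + 1)) * y s ^ (2 : ℝ) := by
    filter_upwards [hy] with s hs
    have hs' : y s ≠ ⊤ := ne_top_of_le_ne_top ENNReal.ofReal_ne_top hs
    have hy1 : (y s).toReal ≤ ε := ENNReal.toReal_le_of_le_ofReal hε0'.le hs
    have hy0 : 0 ≤ (y s).toReal := ENNReal.toReal_nonneg
    have h4 : M * (y s).toReal ≤ r := by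
      calc M * (y s).toReal ≤ M * (r / M) := mul_le_mul_of_nonneg_left (hy1.trans hε) hM.le
        _ = r := by field_simp
    have h5 := h1 (M * (y s).toReal) (by positivity) h4
    have e1 : η / (M ^ 2 * (H + 1)) * (M * (y s).toReal) ^ 2
        = η / (H + 1) * (y s).toReal ^ 2 := by
      field_simp
    rw [e1] at h5
    rw [Ph, ENNReal.toReal_mul, ENNReal.toReal_ofReal hM.le]
    refine (ENNReal.ofReal_le_ofReal h5).trans (le_of_eq ?_)
    rw [ENNReal.ofReal_mul (by positivity), ENNReal.ofReal_pow hy0, ENNReal.ofReal_toReal hs',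
      ← ENNReal.rpow_natCast]
    norm_num
  calc ∫⁻ s, Ph φ (ENNReal.ofReal M * y s) ∂μ
      ≤ ∫⁻ s, ENNReal.ofReal (η / (H + 1)) * y s ^ (2 : ℝ) ∂μ := lintegral_mono_ae h3
    _ = ENNReal.ofReal (η / (H + 1)) * ∫⁻ s, y s ^ (2 : ℝ) ∂μ :=
        lintegral_const_mul' _ _ ENNReal.ofReal_ne_top
    _ ≤ ENNReal.ofReal (η / (H + 1)) * ENNReal.ofReal H := mul_le_mul' le_rfl hyH
    _ = ENNReal.ofReal (η / (H + 1) * H) := (ENNReal.ofReal_mul (by positivity)).symm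
    _ ≤ ENNReal.ofReal η := by
        refine ENNReal.ofReal_le_ofReal ?_
        rw [div_mul_eq_mul_div, div_le_iff₀ (by positivity)]
        nlinarith

end

/-! ### The error terms -/

/-- The sum norm of order `-1` with extended values. -/
noncomputable def XE (E : K3 → ℝ≥0∞) : ℝ≥0∞ := ∑' k, E k * ENNReal.ofReal (1 / len k)

theorem Fb_le_XE {E : K3 → ℝ≥0∞} (h0 : E 0 = 0) {s : ℝ} (hs : 0 < s) : Fb E s ≤ XE E := by
  rw [Fb, XE, ← ENNReal.tsum_mul_left]
  refine ENNReal.tsum_le_tsum fun k => ?_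
  by_cases hk : k = 0
  · rw [hk, h0, mul_zero, mul_zero, zero_mul]
  · rw [← mul_assoc, ← ENNReal.ofReal_mul (Real.sqrt_nonneg _), mul_comm]
    refine mul_le_mul' le_rfl (ENNReal.ofReal_le_ofReal ?_)
    have hl := len_pos hk
    rw [le_div_iff₀ hl]
    have := h744.GS.sqrt_len_ht_le hs k
    linarith

theorem lint_Fb {E : K3 → ℝ≥0∞} (h0 : E 0 = 0) : ∫⁻ s, Fb E s ∂dss ≤ XE E := by
  have hFm : ∀ k, Measurable fun s : ℝ => ENNReal.ofReal (Real.sqrt s * ht s k) := fun k =>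
    ENNReal.measurable_ofReal.comp (Real.continuous_sqrt.mul (h744.GS.ht_cont k)).measurable
  have e1 : ∀ s, Fb E s = ∑' k, ENNReal.ofReal (Real.sqrt s * ht s k) * E k := by
    intro s
    rw [Fb, ← ENNReal.tsum_mul_left]
    refine tsum_congr fun k => ?_
    rw [← mul_assoc, ← ENNReal.ofReal_mul (Real.sqrt_nonneg _)]
  simp_rw [e1]
  have hFm' : ∀ k, AEMeasurable (fun s : ℝ => ENNReal.ofReal (Real.sqrt s * ht s k) * E k) dss :=
    fun k => ((hFm k).mul measurable_const).aemeasurable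
  rw [lintegral_tsum hFm', XE]
  refine ENNReal.tsum_le_tsum fun k => ?_
  rw [lintegral_mul_const _ (hFm k), mul_comm]
  by_cases hk : k = 0
  · rw [hk, h0, zero_mul, zero_mul]
  · refine mul_le_mul' le_rfl ?_
    rw [lintegral_dss (hFm k)]
    have := h744.GS.lintegral_mode (c := 1) zero_le_one hk
    simpa using this

theorem err {φ : ℝ → ℝ} (h : Gauge φ) : ∃ r > 0, ∀ E : K3 → ℝ≥0∞, E 0 = 0 → ∀ g : ℝ, 0 ≤ g → g ≤ r →
    XE E ≤ ENNReal.ofReal g → ∫⁻ s, Ph φ (2 * Fb E s) ∂dss ≤ ENNReal.ofReal (4 * g * g) := by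
  obtain ⟨r, hr, h1⟩ := h.quad_small (η := 1) one_pos
  refine ⟨r / 2, by positivity, fun E h0 g hg0 hg hE => ?_⟩
  have h2 : ∀ᵐ s ∂dss, Ph φ (2 * Fb E s) ≤ ENNReal.ofReal (4 * g) * Fb E s := by
    refine dss_ae fun s hs => ?_
    have h3 : Fb E s ≤ ENNReal.ofReal g := (Fb_le_XE h0 hs).trans hE
    have h3' : Fb E s ≠ ⊤ := ne_top_of_le_ne_top ENNReal.ofReal_ne_top h3
    have h4 : (Fb E s).toReal ≤ g := ENNReal.toReal_le_of_le_ofReal hg0 h3
    have h5 : 0 ≤ (Fb E s).toReal := ENNReal.toReal_nonneg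
    have h6 := h1 (2 * (Fb E s).toReal) (by positivity) (by linarith)
    rw [Ph, ENNReal.toReal_mul]
    have e2 : ENNReal.toReal 2 = 2 := by norm_num
    rw [e2]
    have h7 : φ (2 * (Fb E s).toReal) ≤ 4 * g * (Fb E s).toReal := by
      refine h6.trans ?_
      nlinarith
    refine (ENNReal.ofReal_le_ofReal h7).trans (le_of_eq ?_)
    rw [ENNReal.ofReal_mul (by positivity), ENNReal.ofReal_toReal h3']
  calc ∫⁻ s, Ph φ (2 * Fb E s) ∂dss ≤ ∫⁻ s, ENNReal.ofReal (4 * g) * Fb E s ∂dss :=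
        lintegral_mono_ae h2
    _ = ENNReal.ofReal (4 * g) * ∫⁻ s, Fb E s ∂dss :=
        lintegral_const_mul _ (Fb_meas E)
    _ ≤ ENNReal.ofReal (4 * g) * ENNReal.ofReal g := mul_le_mul' le_rfl ((lint_Fb h0).trans hE)
    _ = _ := (ENNReal.ofReal_mul (by positivity)).symm

end Pool.Agent.Run7.h969.WS
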