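import Pool.Agent.Run7.h969.WS.Bd

/-!
Approximate solutions from profiles: assembly.
-/

set_option autoImplicit false

open MeasureTheory Set Filter Topology
open scoped ContDiff ComplexConjugate NNReal

namespace Pool.Agent.Run7.h969.WS

open H459R3.NS Pool.Agent.Run7.h782 Pool.Agent.Run7.h782.GD Pool.Agent.Run7.h782.GS
open Pool.Agent.Run7.h969.GG Pool.Agent.Run7.h782.WS

theorem sq_sum_ge {ι : Type*} (B : Finset ι) {x : ι → ℝ} (hx : ∀ i, 0 ≤ x i) :
    ∑ i ∈ B, x i ^ 2 ≤ (∑ i ∈ B, x i) ^ 2 := by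
  rw [pow_two, Finset.sum_mul]
  refine Finset.sum_le_sum fun i hi => ?_
  rw [pow_two]
  exact mul_le_mul_of_nonneg_left (Finset.single_le_sum (fun j _ => hx j) hi) (hx i)

theorem ev_sqrt (x κ : ℝ) (hκ : 0 < κ) : ∀ᶠ N : ℕ in atTop, x / Real.sqrt N ≤ κ := by
  have h1 : Tendsto (fun N : ℕ => x / Real.sqrt N) atTop (𝓝 0) :=
    Tendsto.div_atTop tendsto_const_nhds
      (Real.tendsto_sqrt_atTop.comp tendsto_natCast_atTop_atTop)
  exact h1.eventually_le_const hκ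

theorem l1n_nonneg (c : Cf) : 0 ≤ l1n c :=
  Finset.sum_nonneg fun _ _ => integral_nonneg fun _ => norm_nonneg _

section
variable {J : ℕ} {n : Fin J → K3} {s : Fin J → Cf} {N K : ℕ}

/-- The waves at time `0`. -/
theorem hi_zero (ν : ℝ) :
    hi ν (nn n N) (ss s N) K 0 = ((2 * Real.pi * Real.sqrt ν : ℝ) : ℂ) •
      ∑ j : Fin J, ∑ l : Fin N, ((((K ^ ((j : ℕ) + J * l + 1) : ℕ) : ℝ) * len (n j)
        / Real.sqrt N : ℝ) : ℂ) • wv (K ^ ((j : ℕ) + J * l + 1)) (n j) (s j) := by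
  rw [hi, sum_fp, Finset.sum_comm, Finset.smul_sum]
  refine Finset.sum_congr rfl fun j _ => ?_
  rw [Finset.smul_sum]
  refine Finset.sum_congr rfl fun l _ => ?_
  rw [am, rj_fp, ww, Mj_fp, nn_fp, ss_fp, wv_smul, smul_smul, smul_smul, ← Complex.ofReal_mul,
    ← Complex.ofReal_mul]
  congr 2
  rw [mul_zero, neg_zero, Real.exp_zero, mul_one, LL]
  push_cast
  ring

theorem sum_l2 {P : Finset K3} (hN : 0 < N) :
    ∑ i : Fin (N * J), 64 * ∑ p ∈ P, ‖ss s N i p‖ ^ 2 = 64 * ∑ j, ∑ p ∈ P, ‖s j p‖ ^ 2 := by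
  have hNr : (0 : ℝ) < N := by exact_mod_cast hN
  rw [sum_fp]
  have h1 : ∀ (l : Fin N) (j : Fin J), 64 * ∑ p ∈ P, ‖ss s N (finProdFinEquiv (l, j)) p‖ ^ 2
      = 1 / N * (64 * ∑ p ∈ P, ‖s j p‖ ^ 2) := by
    intro l j
    rw [mul_left_comm]
    congr 1
    rw [Finset.mul_sum]
    refine Finset.sum_congr rfl fun p _ => ?_
    rw [ss_fp, Pi.smul_apply, norm_smul, Complex.norm_real, Real.norm_of_nonneg (by positivity),
      mul_pow, div_pow, Real.sq_sqrt hNr.le, one_pow]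
  simp_rw [h1]
  rw [Finset.sum_const, Finset.card_univ, Fintype.card_fin, nsmul_eq_mul, ← Finset.mul_sum,
    ← Finset.mul_sum]
  field_simp

end

/-- **Piece W2.** -/
theorem appP (hAl : StmAlW) : StmAppP := by
  classical
  obtain ⟨C, hC, alw⟩ := hAl
  have hpi := Real.pi_pos
  refine ⟨64 + 2 * Real.pi * C, by positivity, ?_⟩
  intro ν hν J n s P hJ hn0 hsP hsh hkd
  have hsν := Real.sqrt_pos.2 hν
  set S : ℝ := ∑ j, N0 (s j) with hS
  set S2 : ℝ := ∑ j, N0 (s j) ^ 2 with hS2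
  have hS0 : 0 ≤ S := Finset.sum_nonneg fun j _ => N0_nonneg _
  have hS20 : 0 ≤ S2 := Finset.sum_nonneg fun j _ => sq_nonneg _
  refine ⟨64 * S2 + 2 + 128 * ν * S2, ?_⟩
  intro δ hδ
  set Λ : ℝ := ∑ p ∈ P, len p with hΛ
  set nm : ℝ := ∑ j, len (n j) with hnm
  have hΛ0 : 0 ≤ Λ := Finset.sum_nonneg fun p _ => len_nonneg p
  have hΛ1 : ∀ p ∈ P, len p ≤ Λ := fun p hp =>
    Finset.single_le_sum (f := fun p => len p) (fun p _ => len_nonneg p) hp
  have hnm1 : ∀ j, len (n j) ≤ nm := fun j =>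
    Finset.single_le_sum (f := fun j => len (n j)) (fun j _ => len_nonneg _) (Finset.mem_univ j)
  have hnm0 : 0 ≤ nm := Finset.sum_nonneg fun j _ => len_nonneg _
  -- the choice of the number of layers
  obtain ⟨N, hN, hN1, hN2, hN3, hN4⟩ : ∃ N : ℕ, 0 < N ∧
      (∑ j, ∑' k, ‖nl (s j) (s j) k‖ / len k) / N ≤ δ ∧
      96 * Real.sqrt ν * S / Real.sqrt N ≤ δ ∧ 96 * Real.pi * S / Real.sqrt N ≤ δ / 2 ∧
      192 * Real.pi * S / Real.sqrt ν / Real.sqrt N ≤ δ / 2 := by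
    have a1 : ∀ᶠ N : ℕ in atTop, 0 < N := eventually_gt_atTop 0
    have a4 : ∀ x κ : ℝ, 0 < κ → ∀ᶠ N : ℕ in atTop, x / N ≤ κ := fun x κ hκ =>
      (tendsto_const_div_atTop_nhds_zero_nat x).eventually_le_const hκ
    exact (a1.and ((a4 _ δ hδ).and ((ev_sqrt _ δ hδ).and ((ev_sqrt _ (δ / 2) (by positivity)).and
      (ev_sqrt _ (δ / 2) (by positivity)))))).exists
  have hNr : (0 : ℝ) < N := by exact_mod_cast hN
  obtain ⟨M₀, hM₀⟩ := alw J N n s P hN hn0 hsP hsh hkd (δ / (2 * Real.pi * Real.sqrt ν))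
    (by positivity)
  have D : Dat (nn n N) (ss s N) P 0 Λ nm := dat_layers hn0 hsP hkd hΛ0 hΛ1 hnm1
  set y1 : Fin (N * J) → ℝ := fun i => 8 * N0 (ss s N i) with hy1
  set y2 : Fin (N * J) → ℝ := fun i => Real.sqrt (64 * ∑ p ∈ P, ‖ss s N i p‖ ^ 2) with hy2
  have hy10 : ∀ i, 0 ≤ y1 i := fun i => by
    have := N0_nonneg (ss s N i)
    rw [hy1]
    positivity
  have hy20 : ∀ i, 0 ≤ y2 i := fun i => Real.sqrt_nonneg _
  -- the choice of the frequencies
  obtain ⟨K, hK, hKΛ, hKn, hKM, hK1, hK2, hK3, hK4, hK5, hK6, hK7, hK8, hKν, hKe⟩ :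
      ∃ K : ℕ, 2 ≤ K ∧ 2 * Λ ≤ K ∧ nm ≤ K ∧ M₀ ≤ K ∧
      KK ν (ss s N) 0 Λ nm / K ≤ δ ∧
      2 * Q0 (ss s N) 0 ^ 2 / ν / K ≤ 1 ∧ 2 * Q0 (ss s N) 0 ^ 2 / ν / K ≤ δ / 2 ∧
      2 * nm * (∑ i, y1 i) ^ 2 / K ≤ 1 ∧ 2 * nm * (∑ i, y2 i) ^ 2 / K ≤ δ / 2 ∧
      nm * (16 * Real.sqrt ν * ∑ i, N0 (ss s N i)) ^ 2 / K ≤ 1 ∧
      Q0 (ss s N) 0 / Real.sqrt ν / Real.sqrt K ≤ δ / 2 ∧
      Q1 (ss s N) 0 / ν / K ≤ δ / 2 ∧ 2 / ν ≤ K ∧
      Real.exp (-(ν * δ / 2 * K)) * (Q1 (ss s N) 0 + 32 * Real.pi * Real.sqrt ν * nm ^ 2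
        * (∑ i, N0 (ss s N i)) * (K : ℝ) ^ (2 * (N * J))) ≤ δ := by
    have a1 : ∀ m : ℕ, ∀ᶠ N : ℕ in atTop, m ≤ N := fun m => eventually_ge_atTop m
    have a2 : ∀ x : ℝ, ∀ᶠ N : ℕ in atTop, x ≤ N := fun x =>
      tendsto_natCast_atTop_atTop.eventually_ge_atTop x
    have a4 : ∀ x κ : ℝ, 0 < κ → ∀ᶠ N : ℕ in atTop, x / N ≤ κ := fun x κ hκ =>
      (tendsto_const_div_atTop_nhds_zero_nat x).eventually_le_const hκ
    have hδ2 : 0 < δ / 2 := by positivity
    exact ((a1 2).and ((a2 _).and ((a2 _).and ((a1 M₀).and ((a4 _ δ hδ).and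
      ((a4 _ 1 one_pos).and ((a4 _ _ hδ2).and ((a4 _ 1 one_pos).and ((a4 _ _ hδ2).and
      ((a4 _ 1 one_pos).and ((ev_sqrt _ _ hδ2).and ((a4 _ _ hδ2).and ((a2 _).and
      (ev_exp (Q1 (ss s N) 0) (32 * Real.pi * Real.sqrt ν * nm ^ 2 * ∑ i, N0 (ss s N i))
        (ν * δ / 2) δ (by positivity) hδ (2 * (N * J)))))))))))))))).exists
  have hK0 : 0 < K := by omega
  have hKr : (0 : ℝ) < K := by exact_mod_cast hK0
  have hls0 : 0 < ls ν K := lt_of_lt_of_le (by positivity) (ls_ge hν hK0)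
  -- frequencies of the waves
  have hwf : ∀ j k, ww (nn n N) (ss s N) K j k ≠ 0 → (K : ℝ) / 2 ≤ len k := by
    intro j k hk
    have hM : 2 * Λ ≤ (Mj K j : ℝ) := hKΛ.trans (by exact_mod_cast Mj_ge hK0 j)
    have h1 := wv_ge (D.n0 j) (D.sP j) D.Λ1 hM hk
    have h2 := lm_ge' D hK0 j
    linarith
  choose Qw hQw using fun j => wv_supp (D.sP j) (Mj K j) (nn n N j)
  set Q : Finset K3 := (P ∪ Finset.image₂ (fun x y => x + y) P P) ∪ Finset.univ.biUnion Qw
    with hQ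
  have hbb : ∀ i, ∀ k ∉ Q, bb (nn n N) (ss s N) 0 K i k = 0 := by
    intro i k hk
    rw [hQ, Finset.mem_union, not_or, Finset.mem_union, not_or, Finset.mem_biUnion] at hk
    rcases i with j | j | _
    · exact supp_qq D j k hk.1.2
    · exact hQw j k fun h => hk.2 ⟨j, Finset.mem_univ j, h⟩
    · exact D.zP k hk.1.1
  have hb0 : ∀ i, bb (nn n N) (ss s N) 0 K i 0 = 0 := by
    intro i
    rcases i with j | j | _
    · exact nl_zero_mode _ _
    · by_contra h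
      have h1 := hwf j 0 h
      rw [len_zero] at h1
      linarith
    · rfl
  have hssh : ∀ i, Herm (ss s N i) := fun i => (hsh _).smul _
  have hbh : ∀ i, Herm (bb (nn n N) (ss s N) 0 K i) := by
    intro i
    rcases i with j | j | _
    · exact herm_nl (hssh j) (hssh j)
    · exact herm_wv (hssh j) _ _
    · exact Herm.zero
  have hbd : ∀ i, Dv (bb (nn n N) (ss s N) 0 K i) := by
    intro i
    rcases i with j | j | _
    · exact dv_nl _ _
    · exact dv_wv _ _ _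
    · exact Dv.zero
  have A := appr_ef ν hbh hbd hb0 hbb (cc ν (nn n N) K) (mu ν (nn n N) K)
  set B : Finset K3 := (Q ∪ Finset.image₂ (fun x y => x + y) Q Q).erase 0 with hB
  set v : ℝ → Cf := ef (cc ν (nn n N) K) (mu ν (nn n N) K) (bb (nn n N) (ss s N) 0 K) with hvdef
  have hv : ∀ t, v t = lo ν (nn n N) (ss s N) 0 K t + hi ν (nn n N) (ss s N) K t :=
    fun t => ef_eq t
  have hvc : ∀ k, Continuous fun t => v t k := fun k => ef_cont _ _ _ k
  have hl1 : ∀ t, L1 (lo ν (nn n N) (ss s N) 0 K t) := fun t =>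
    L1.lo' (ν := ν) (n := nn n N) (N := K) (lq D) (lz D) t
  have hh1 : ∀ t, L1 (hi ν (nn n N) (ss s N) K t) := fun t => L1.hi' (ν := ν) (N := K) (lw D) t
  have hsum : ∀ t, ∑ k ∈ B, ‖v t k‖
      ≤ N0 (lo ν (nn n N) (ss s N) 0 K t) + N0 (hi ν (nn n N) (ss s N) K t) := by
    intro t
    rw [hv]
    exact (sum_le_N0' ((hl1 t).add (hh1 t)) B).trans (N0_add_le (hl1 t) (hh1 t))
  have hlo0 : lo ν (nn n N) (ss s N) 0 K 0 = ∑ j, nl (s j) (s j) := by
    rw [lo]
    simp only [mul_zero, neg_zero, Real.exp_zero, Complex.ofReal_one, one_smul, add_zero]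
    exact sum_qq hN
  have hw0 : ∀ k, (∀ j, ww (nn n N) (ss s N) K j k = 0) → hi ν (nn n N) (ss s N) K 0 k = 0 := by
    intro k hk
    rw [hi, Finset.sum_apply]
    exact Finset.sum_eq_zero fun j _ => by rw [Pi.smul_apply, hk j, smul_zero]
  refine ⟨B, v, rs ν (cc ν (nn n N) K) (mu ν (nn n N) K) (bb (nn n N) (ss s N) 0 K),
    ge (ga ν (nn n N) (ss s N) 0 Λ 0 K) (gm ν (nn n N) K), hh ν (nn n N) (ss s N) K,
    hi ν (nn n N) (ss s N) K 0, A, ge_cont _ _, ?_, ?_, ?_, ?_, ?_, ?_, ?_, hh_cont, ?_, ?_, ?_,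
    ?_, ?_, ?_, ?_⟩
  · intro t ht
    exact rs_le D hν hK0 hKΛ B (Xb_zero B).le ht
  · intro T hT
    refine (ge_int (ga_nonneg D hν hK0 le_rfl) (gm_pos D hν hK0) hT).trans ?_
    refine (ga_sum D hν hK0 le_rfl).trans ?_
    linarith
  · intro T hT
    have hc : Continuous fun t => (∑ k ∈ B, ‖v t k‖) ^ 2 :=
      (continuous_finsetSum _ fun k _ => (hvc k).norm).pow 2
    have h1 := int_sq D hν hK0 hy10 hc (q := Q0 (ss s N) 0) (fun t ht => ?_) hT hnm0
    · have h2 : ∑ i, y1 i ^ 2 = 64 * S2 := by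
        have e : ∀ i, y1 i ^ 2 = 64 * N0 (ss s N i) ^ 2 := fun i => by
          simp only [hy1]
          ring
        simp_rw [e]
        rw [← Finset.mul_sum, sum_N0_sq hN]
      have h3 : 2 * (nm / K) * (∑ i, y1 i) ^ 2 = 2 * nm * (∑ i, y1 i) ^ 2 / K := by ring
      rw [h2, h3] at h1
      have h4 : 0 ≤ 128 * ν * S2 := by positivity
      linarith
    · have h2 := hsum t
      have h3 : 0 ≤ ∑ k ∈ B, ‖v t k‖ := Finset.sum_nonneg fun k _ => norm_nonneg _
      have h4 : N0 (lo ν (nn n N) (ss s N) 0 K t) ≤ Q0 (ss s N) 0 * Real.exp (-(ls ν K * t)) :=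
        N0_lo D hν hK0 ht
      have h5 : N0 (hi ν (nn n N) (ss s N) K t) ≤ ∑ j, y1 j
          * (rj ν (nn n N) K j * Real.exp (-(rj ν (nn n N) K j ^ 2 * t))) := by
        refine (N0_hi D hν hK0 t).trans (le_of_eq ?_)
        refine Finset.sum_congr rfl fun j _ => ?_
        rw [am, hy1]
        ring
      have h6 := pow_le_pow_left₀ h3 (h2.trans (add_le_add h4 h5)) 2
      refine h6.trans ?_
      nlinarith [sq_nonneg (Q0 (ss s N) 0 * Real.exp (-(ls ν K * t)) - ∑ j, y1 j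
          * (rj ν (nn n N) K j * Real.exp (-(rj ν (nn n N) K j ^ 2 * t))))]
  · intro T hT
    have hc : Continuous fun t => ∑ k ∈ B, ‖v t k‖ ^ 2 :=
      continuous_finsetSum _ fun k _ => (hvc k).norm.pow 2
    have h1 := int_sq D hν hK0 hy20 hc (q := Q0 (ss s N) 0) (fun t ht => ?_) hT hnm0
    · have h2 : ∑ i, y2 i ^ 2 = 64 * ∑ j, ∑ p ∈ P, ‖s j p‖ ^ 2 := by
        have e : ∀ i, y2 i ^ 2 = 64 * ∑ p ∈ P, ‖ss s N i p‖ ^ 2 := fun i =>
          Real.sq_sqrt (mul_nonneg (by norm_num) (Finset.sum_nonneg fun p _ => sq_nonneg _))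
        simp_rw [e]
        exact sum_l2 hN
      have h3 : 2 * (nm / K) * (∑ i, y2 i) ^ 2 = 2 * nm * (∑ i, y2 i) ^ 2 / K := by ring
      rw [h2, h3] at h1
      have h4 : 0 ≤ 2 * Real.pi * C * ∑ j, ∑ p ∈ P, ‖s j p‖ ^ 2 :=
        mul_nonneg (by positivity) (Finset.sum_nonneg fun j _ =>
          Finset.sum_nonneg fun p _ => sq_nonneg _)
      linarith
    · have h2 : ∑ k ∈ B, ‖v t k‖ ^ 2
          ≤ 2 * ∑ k ∈ B, ‖lo ν (nn n N) (ss s N) 0 K t k‖ ^ 2
            + 2 * ∑ k ∈ B, ‖hi ν (nn n N) (ss s N) K t k‖ ^ 2 := by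
        rw [Finset.mul_sum, Finset.mul_sum, ← Finset.sum_add_distrib]
        refine Finset.sum_le_sum fun k _ => ?_
        rw [hv, Pi.add_apply]
        have h3 := norm_add_le (lo ν (nn n N) (ss s N) 0 K t k) (hi ν (nn n N) (ss s N) K t k)
        have h4 := pow_le_pow_left₀ (norm_nonneg _) h3 2
        nlinarith [sq_nonneg (‖lo ν (nn n N) (ss s N) 0 K t k‖
          - ‖hi ν (nn n N) (ss s N) K t k‖)]
      have h3 : ∑ k ∈ B, ‖lo ν (nn n N) (ss s N) 0 K t k‖ ^ 2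
          ≤ (Q0 (ss s N) 0 * Real.exp (-(ls ν K * t))) ^ 2 := by
        refine (sq_sum_ge B fun k => norm_nonneg _).trans ?_
        exact pow_le_pow_left₀ (Finset.sum_nonneg fun k _ => norm_nonneg _)
          ((sum_le_N0' (hl1 t) B).trans (N0_lo D hν hK0 ht)) 2
      have h4 : ∑ k ∈ B, ‖hi ν (nn n N) (ss s N) K t k‖ ^ 2
          ≤ (∑ j, y2 j * (rj ν (nn n N) K j * Real.exp (-(rj ν (nn n N) K j ^ 2 * t)))) ^ 2 := by
        refine (sq_sum_le B (c := am ν (nn n N) K t) (w := ww (nn n N) (ss s N) K)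
          (fun i => am_nonneg D hν hK0 t i) hy20 (fun i => ?_)).trans (le_of_eq ?_)
        · rw [hy2, Real.sq_sqrt (mul_nonneg (by norm_num)
            (Finset.sum_nonneg fun p _ => sq_nonneg _))]
          exact wv_l2 (D.sP i) _ _ B
        · congr 1
          refine Finset.sum_congr rfl fun j _ => ?_
          rw [am, mul_comm]
      linarith
  · intro k
    rw [hv, hlo0, Pi.add_apply, Finset.sum_apply]
  · intro k hk
    refine hw0 k fun j => ?_
    by_contra h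
    have h1 := hwf j k h
    have hk0 : k ≠ 0 := fun e => by
      rw [e, len_zero] at h1
      linarith
    have hkQ : k ∉ Q := fun h' => hk (by
      rw [hB, Finset.mem_erase]
      exact ⟨hk0, Finset.mem_union_left _ h'⟩)
    exact h (hbb (Sum.inr (Sum.inl j)) k hkQ)
  · have h1 := hM₀ (fun j l => K ^ ((j : ℕ) + J * l + 1))
      (fun j l => hKM.trans (Nat.le_self_pow (by omega) K)) (fun j l l' hl => ?_)
    · rw [hi_zero, al_smul (by positivity)]
      have h2 := mul_le_mul_of_nonneg_left h1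
        (by positivity : 0 ≤ 2 * Real.pi * Real.sqrt ν)
      refine h2.trans ?_
      have h3 : 0 ≤ ∑ j, l1n (s j) := Finset.sum_nonneg fun j _ => l1n_nonneg _
      have h4 : 2 * Real.pi * Real.sqrt ν * (C * ∑ j, l1n (s j)
          + δ / (2 * Real.pi * Real.sqrt ν))
          = 2 * Real.pi * C * Real.sqrt ν * (∑ j, l1n (s j)) + δ := by
        field_simp
      rw [h4]
      have h5 : 0 ≤ 64 * Real.sqrt ν * ∑ j, l1n (s j) := by positivity
      linarith
    · have hll : (l : ℕ) < l' := hl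
      have h2 : K * K ^ ((j : ℕ) + J * l + 1) ≤ K ^ ((j : ℕ) + J * l' + 1) := by
        rw [← pow_succ']
        refine Nat.pow_le_pow_right hK0 ?_
        have h3 : J * (l + 1) ≤ J * l' := Nat.mul_le_mul_left J hll
        have h4 : J * ((l : ℕ) + 1) = J * l + J := by ring
        omega
      have h3 : 2 * K ^ ((j : ℕ) + J * l + 1) ≤ K * K ^ ((j : ℕ) + J * l + 1) :=
        Nat.mul_le_mul_right _ hK
      have h4 : M₀ ≤ K ^ ((j : ℕ) + J * l + 1) := hKM.trans (Nat.le_self_pow (by omega) K)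
      show M₀ + K ^ ((j : ℕ) + J * l + 1) ≤ K ^ ((j : ℕ) + J * l' + 1)
      omega
  · intro r hr
    refine (hh_le hν hK hJ hr).trans ?_
    exact div_le_div_of_nonneg_right hN2 (Real.sqrt_nonneg _)
  · intro T hT
    refine (hh_int D hν hK0 hT hnm0).trans ?_
    rw [sum_N0_sq hN]
    have h3 : nm / K * (16 * Real.sqrt ν * ∑ i, N0 (ss s N i)) ^ 2
        = nm * (16 * Real.sqrt ν * ∑ i, N0 (ss s N i)) ^ 2 / K := by ring
    rw [h3]
    linarith
  · intro r hr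
    exact ht_hi D hν hK0 hKΛ B le_rfl hr
  · intro t h0t
    have hnls : ∀ j, ∀ k ∉ Finset.image₂ (fun x y => x + y) P P, nl (s j) (s j) k = 0 :=
      fun j k hk => nl_supp (hsP j) hk
    have hes : ∀ k ∉ Finset.image₂ (fun x y => x + y) P P,
        1 / (N : ℝ) * ∑ j, ‖nl (s j) (s j) k‖ = 0 := fun k hk => by
      rw [Finset.sum_eq_zero fun j _ => by rw [hnls j k hk, norm_zero], mul_zero]
    have hes1 : Summable fun k => 1 / (N : ℝ) * ∑ j, ‖nl (s j) (s j) k‖ :=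
      summable_of_ne_finset_zero (s := Finset.image₂ (fun x y => x + y) P P) hes
    have he0 : ∀ k, 0 ≤ 1 / (N : ℝ) * ∑ j, ‖nl (s j) (s j) k‖ := fun k =>
      mul_nonneg (by positivity) (Finset.sum_nonneg fun j _ => norm_nonneg _)
    refine ⟨fun k => 1 / (N : ℝ) * ∑ j, ‖nl (s j) (s j) k‖, he0, ?_, hes1, ?_, ?_⟩
    · simp only [nl_zero_mode, norm_zero, Finset.sum_const_zero, mul_zero]
    · have h1 : ∀ k, 1 / (N : ℝ) * (∑ j, ‖nl (s j) (s j) k‖) / len k
          = 1 / (N : ℝ) * ∑ j, ‖nl (s j) (s j) k‖ / len k := by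
        intro k
        rw [← Finset.sum_div]
        ring
      simp_rw [h1]
      rw [tsum_mul_left, Summable.tsum_finsetSum fun j _ => ?_]
      · refine le_trans (le_of_eq ?_) hN1
        ring
      · exact summable_of_ne_finset_zero (s := Finset.image₂ (fun x y => x + y) P P)
          fun k hk => by rw [hnls j k hk, norm_zero, zero_div]
    · intro r hr
      have h1 : ∀ k, ht r k * ‖v t k‖ ≤ ht r k * ‖∑ j, nl (s j) (s j) k‖
          + ht r k * (1 / (N : ℝ) * ∑ j, ‖nl (s j) (s j) k‖)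
          + ht r k * ‖hi ν (nn n N) (ss s N) K t k‖ := by
        intro k
        rw [hv, Pi.add_apply, ← mul_add, ← mul_add]
        refine mul_le_mul_of_nonneg_left ?_ (ht_pos' r k).le
        refine (norm_add_le _ _).trans (add_le_add ?_ le_rfl)
        exact lo_near hJ hn0 hnm1 hK0 hKn hN s h0t k
      refine (Finset.sum_le_sum fun k _ => h1 k).trans ?_
      rw [Finset.sum_add_distrib, Finset.sum_add_distrib]
      have h2 := ht_hi D hν hK0 hKΛ B h0t hr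
      have h3 : ∑ k ∈ B, ht r k * (1 / (N : ℝ) * ∑ j, ‖nl (s j) (s j) k‖)
          ≤ ∑' k, ht r k * (1 / (N : ℝ) * ∑ j, ‖nl (s j) (s j) k‖) := by
        refine Summable.sum_le_tsum B (fun k _ => mul_nonneg (ht_pos' r k).le (he0 k)) ?_
        exact summable_of_ne_finset_zero (s := Finset.image₂ (fun x y => x + y) P P)
          fun k hk => by rw [hes k hk, mul_zero]
      have h4 : ∑ k ∈ B, ht r k * ‖hi ν (nn n N) (ss s N) K t k‖
          ≤ hh ν (nn n N) (ss s N) K r := h2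
      linarith
  · intro t ht
    refine (hsum t).trans ((N0_bd D hν hK hJ ht).trans ?_)
    refine div_le_div_of_nonneg_right ?_ (Real.sqrt_nonneg _)
    linarith
  · intro t ht
    have h1 := Yb_bd D hν hK hKΛ hJ B ht
    rw [← hv] at h1
    refine h1.trans ?_
    refine div_le_div_of_nonneg_right ?_ ht.le
    linarith
  · intro t ht
    have ht0 : 0 ≤ t := hδ.le.trans ht
    have h1 := Yb_v D hν hK0 hKΛ B ht0
    rw [← hv] at h1
    refine h1.trans ?_
    have hQ1 : 0 ≤ Q1 (ss s N) 0 := Q1_nonneg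
    have hSS : 0 ≤ ∑ i, N0 (ss s N i) := Finset.sum_nonneg fun i _ => N0_nonneg _
    have hνN : 2 ≤ ν * K := by
      rw [div_le_iff₀ hν] at hKν
      linarith
    have h2 : Real.exp (-(ls ν K * t)) ≤ Real.exp (-t) * Real.exp (-(ν * δ / 2 * K)) := by
      rw [← Real.exp_add]
      refine Real.exp_le_exp.2 ?_
      have h3 := ls_ge hν hK0
      have h4 : ν * K * t ≤ ls ν K * t := mul_le_mul_of_nonneg_right h3 ht0
      have h5 : t ≤ ν * K * t / 2 := by nlinarith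
      have h6 : ν * δ / 2 * K ≤ ν * K * t / 2 := by
        have : ν * K * δ ≤ ν * K * t := mul_le_mul_of_nonneg_left ht (by positivity)
        linarith
      linarith
    calc _ ≤ (Real.exp (-t) * Real.exp (-(ν * δ / 2 * K)))
          * (Q1 (ss s N) 0 + 32 * Real.pi * Real.sqrt ν * nm ^ 2 * (∑ i, N0 (ss s N i))
            * (K : ℝ) ^ (2 * (N * J))) := by
          refine mul_le_mul_of_nonneg_right h2 ?_
          positivity
      _ = (Real.exp (-(ν * δ / 2 * K)) * (Q1 (ss s N) 0 + 32 * Real.pi * Real.sqrt ν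
          * nm ^ 2 * (∑ i, N0 (ss s N i)) * (K : ℝ) ^ (2 * (N * J)))) * Real.exp (-t) := by ring
      _ ≤ δ * Real.exp (-t) := mul_le_mul_of_nonneg_right hKe (Real.exp_pos _).le

end Pool.Agent.Run7.h969.WS
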