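import Pool.Agent.Run7.h744.WS.HDefs

/-!
Weak solutions which are smooth for positive times: the sharp form with an arbitrary gauge.

For a convex function `φ ≥ 0` with `φ x = o(x²)` as `x → 0` the solutions satisfy
`∫₀¹ φ (√t |u t|_∞) dt / t < ∞`; with `φ x = x²` this would be `u ∈ L² L^∞`, a class of uniqueness.
-/

set_option autoImplicit false

open MeasureTheory Set Filter Topology
open scoped ContDiff ENNReal ComplexConjugate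

namespace Pool.Agent.Run7.h969.WS

open H459R3.NS Pool.Agent.Run7.h782 Pool.Agent.Run7.h782.GD Pool.Agent.Run7.h782.GS
open Pool.Agent.Run7.h782.WS Pool.Agent.Run7.h744.WS

/-- Gauges: convex functions `≥ 0` on `[0, ∞)` which are `o(x²)` as `x → 0`. -/
structure Gauge (φ : ℝ → ℝ) : Prop where
  zero : φ 0 = 0
  nonneg : ∀ x, 0 ≤ x → 0 ≤ φ x
  conv : ConvexOn ℝ (Ici 0) φ
  small : Tendsto (fun x => φ x / x ^ 2) (𝓝[>] 0) (𝓝 0)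

/-- The integral of `φ (√s sup |e^{sΔ} f|) / s`, `s > 0` (with `φ x = x ^ q` the `q`-th power of the
norm of the homogeneous Besov space of order `-1` with indices `∞, q`). -/
noncomputable def besG (φ : ℝ → ℝ) (f : V → ℝ) : ℝ≥0∞ :=
  ∫⁻ s in Ioi (0 : ℝ), (⨆ x, ENNReal.ofReal (φ (Real.sqrt s * |heat s f x|))) / ENNReal.ofReal s

/-- The same for families of coefficients, with the sum norm. -/
noncomputable def besGC (φ : ℝ → ℝ) (c : K3 → ℝ) : ℝ≥0∞ :=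
  ∫⁻ s in Ioi (0 : ℝ), ENNReal.ofReal (φ (Real.sqrt s * ∑' k, ht s k * c k)) / ENNReal.ofReal s

/-- The iteration with a gauge (contains `StmIterH`). -/
def StmIterG : Prop := ∀ (ν : ℝ), 0 < ν → ∀ U : ℝ → Cf, Tg ν U → ∀ c : Cf, c 0 = 0 → Dat c →
  ∀ φ : ℝ → ℝ, Gauge φ → ∀ δ : ℝ, 0 < δ →
  ∃ b : ℝ → Cf, (∀ τ : ℝ, 0 < τ → CSol ν (fun t => b (t + τ))) ∧
    (∀ k, Tendsto (fun t => b t k) (𝓝[>] 0) (𝓝 (c k))) ∧
    (∃ C : ℝ, ∀ t, 0 < t → t ≤ 1 → ∀ k, ‖b t k‖ ≤ C * (1 + len k) ^ 2) ∧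
    ((Summable fun k => ‖c k‖) →
      Tendsto (fun t => besGC φ (fun k => ‖b t k - c k‖)) (𝓝[>] 0) (𝓝 0)) ∧
    Tendsto (fun t => Real.sqrt t * ∑' k, ‖b t k‖) (𝓝[>] 0) (𝓝 0) ∧
    IntegrableOn (fun t => φ (Real.sqrt t * ∑' k, ‖b t k‖) / t) (Ioc 0 1) ∧
    IntegrableOn (fun t => ∑' k, ‖b t k‖ ^ 2) (Ioc 0 1) ∧
    ∀ t, δ ≤ t → ∀ A : Finset K3, ∑ k ∈ A, ‖b t k - U t k‖ ≤ δ

/-- From `StmIterG` (as `StmInitH`). -/
def StmInitG : Prop := ∀ (ν : ℝ), 0 < ν → ∀ c : Cf, Dat c → ∀ (U : ℝ → V → V) (P : ℝ → V → ℝ),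
  (∀ T, IsSol ν T U P) → (∀ i, ((∫ x in cube, U 0 x i : ℝ) : ℂ) = c 0 i) →
  ∀ φ : ℝ → ℝ, Gauge φ → ∀ δ : ℝ, 0 < δ →
  ∃ (u : ℝ → V → V) (p : ℝ → V → ℝ), OSol ν u p ∧
    (∀ (T : ℝ) (i : Fin 3),
      IntegrableOn (fun z : ℝ × V => u z.1 z.2 i ^ 2) (Ioc 0 T ×ˢ cube)) ∧
    (∀ k, Tendsto (fun t => vf (u t) k) (𝓝[>] 0) (𝓝 (c k))) ∧
    (∃ C : ℝ, ∀ t, 0 < t → t ≤ 1 → ∀ k, ‖vf (u t) k‖ ≤ C * (1 + len k) ^ 2) ∧
    (∃ h : ℝ → ℝ, (∀ t, 0 < t → ∀ x i, |u t x i| ≤ h t) ∧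
      Tendsto (fun t => Real.sqrt t * h t) (𝓝[>] 0) (𝓝 0) ∧
      IntegrableOn (fun t => φ (Real.sqrt t * h t) / t) (Ioc 0 1)) ∧
    ((Summable fun k => ‖c k‖) → ∀ i,
      Tendsto (fun t => besG φ (fun x => u t x i - (S (fun k => c k i) x).re)) (𝓝[>] 0) (𝓝 0)) ∧
    ∀ t, δ ≤ t → ∀ x i, |u t x i - U t x i| ≤ δ

/-- **The theorem.** Every divergence free datum of class `H⁻¹`, every global smooth solution `U`
with the same mean and every gauge. -/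
def StmSharp : Prop := ∀ (ν : ℝ), 0 < ν → ∀ c : Cf, Dat c → ∀ (U : ℝ → V → V) (P : ℝ → V → ℝ),
  (∀ T, IsSol ν T U P) → (∀ i, ((∫ x in cube, U 0 x i : ℝ) : ℂ) = c 0 i) →
  ∀ φ : ℝ → ℝ, Gauge φ → ∀ δ : ℝ, 0 < δ →
  ∃ (u : ℝ → V → V) (p : ℝ → V → ℝ), OSol ν u p ∧
    (∀ (T : ℝ) (i : Fin 3),
      IntegrableOn (fun z : ℝ × V => u z.1 z.2 i ^ 2) (Ioc 0 T ×ˢ cube)) ∧
    (∀ (i : Fin 3) (ψ : V → ℝ), ContDiff ℝ ∞ ψ → Per ψ →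
      Tendsto (fun t => ∫ x in cube, u t x i * ψ x) (𝓝[>] 0) (𝓝 (pr c i ψ))) ∧
    (∀ ψ : V → V, ContDiff ℝ ∞ ψ → Per ψ → (∀ x, ∑ i, pd i (fun y => ψ y i) x = 0) →
      ∀ t, 0 < t → ∫ x in cube, ∑ i, u t x i * ψ x i = (∑ i, pr c i (fun x => ψ x i))
        + ∫ z in Ioc 0 t ×ˢ cube,
          (∑ i, ∑ j, u z.1 z.2 i * u z.1 z.2 j * pd i (fun y => ψ y j) z.2
            + ν * ∑ i, u z.1 z.2 i * ∑ j, pd j (pd j (fun y => ψ y i)) z.2)) ∧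
    (∃ h : ℝ → ℝ, (∀ t, 0 < t → ∀ x i, |u t x i| ≤ h t) ∧
      Tendsto (fun t => Real.sqrt t * h t) (𝓝[>] 0) (𝓝 0) ∧
      IntegrableOn (fun t => φ (Real.sqrt t * h t) / t) (Ioc 0 1)) ∧
    ((Summable fun k => ‖c k‖) → ∀ i,
      Tendsto (fun t => besG φ (fun x => u t x i - (S (fun k => c k i) x).re)) (𝓝[>] 0) (𝓝 0)) ∧
    ∀ t, δ ≤ t → ∀ x i, |u t x i - U t x i| ≤ δ

/-- `StmInitG` and the pieces R3b, R3c give the theorem. -/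
theorem sharp (h1 : StmInitG) (h2 : StmPairH) (h3 : StmWkH) : StmSharp := by
  intro ν hν c hc U P hU hm φ hφg δ hδ
  obtain ⟨u, p, hO, hL, hk, hb, hh, hbes, hcl⟩ := h1 ν hν c hc U P hU hm φ hφg δ hδ
  have hpair : ∀ (i : Fin 3) (ψ : V → ℝ), ContDiff ℝ ∞ ψ → Per ψ →
      Tendsto (fun t => ∫ x in cube, u t x i * ψ x) (𝓝[>] 0) (𝓝 (pr c i ψ)) := by
    intro i ψ hψ hψp
    refine h2 (fun t x => u t x i) (fun k => c k i) (fun t ht => contDiff_pi.1 (slice_smooth hO ht) i)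
      (fun t ht j x => ?_) (fun k => ?_) ?_ ψ hψ hψp
    · show u t (x + Pi.single j 1) i = u t x i
      rw [hO.per_u t ht j x]
    · exact (tendsto_pi_nhds.1 (hk k)) i
    · obtain ⟨C, hC⟩ := hb
      exact ⟨C, fun t ht ht1 k => (norm_le_pi_norm (vf (u t) k) i).trans (hC t ht ht1 k)⟩
  refine ⟨u, p, hO, hL, hpair, ?_, hh, hbes, hcl⟩
  intro ψ hψ hψp hd t ht
  refine h3 ν u p hO hL ψ hψ hψp hd _ ?_ t ht
  exact tendsto_finsetSum _ fun i _ => hpair i (fun x => ψ x i) (contDiff_pi.1 hψ i)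
    (fun j x => by show ψ (x + Pi.single j 1) i = ψ x i; rw [hψp j x])

end Pool.Agent.Run7.h969.WS
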