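import Pool.Agent.Run7.h969.WS.StpG

/-!
The gauge clauses for the limit.
-/

set_option autoImplicit false

open MeasureTheory Set Filter Topology
open scoped ENNReal

namespace Pool.Agent.Run7.h969.WS

open H459R3.NS Pool.Agent.Run7.h782 Pool.Agent.Run7.h782.GD Pool.Agent.Run7.h782.GS
open Pool.Agent.Run7.h782.WS Pool.Agent.Run7.h744.WS Pool.Agent.Run7.h969.GS
open Pool.Agent.Run7 Pool.Agent.Run7.h308.WS

theorem Fb_mono {c d : K3 → ℝ≥0∞} (h : ∀ k, c k ≤ d k) (s : ℝ) : Fb c s ≤ Fb d s :=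
  mul_le_mul' le_rfl (ENNReal.tsum_le_tsum fun k => mul_le_mul' le_rfl (h k))

theorem Fb_tsum (c : ℕ → K3 → ℝ≥0∞) (s : ℝ) : Fb (fun k => ∑' n, c n k) s = ∑' n, Fb (c n) s := by
  simp only [Fb]
  rw [ENNReal.tsum_mul_left]
  congr 1
  rw [ENNReal.tsum_comm]
  exact tsum_congr fun k => ENNReal.tsum_mul_left.symm

theorem XE_add (c d : K3 → ℝ≥0∞) : XE (fun k => c k + d k) = XE c + XE d := by
  simp only [XE, add_mul, ENNReal.tsum_add]

theorem XE_tsum (c : ℕ → K3 → ℝ≥0∞) : XE (fun k => ∑' n, c n k) = ∑' n, XE (c n) := by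
  simp only [XE]
  rw [ENNReal.tsum_comm]
  exact tsum_congr fun k => ENNReal.tsum_mul_right.symm

theorem XE_le_tsum {c : K3 → ℝ≥0∞} (h0 : c 0 = 0) : XE c ≤ ∑' k, c k := by
  rw [XE]
  refine ENNReal.tsum_le_tsum fun k => ?_
  by_cases hk : k = 0
  · rw [hk, h0, zero_mul]
  · refine (mul_le_mul' le_rfl ?_).trans (le_of_eq (mul_one _))
    rw [← ENNReal.ofReal_one]
    refine ENNReal.ofReal_le_ofReal ?_
    rw [div_le_one (len_pos hk)]
    exact one_le_len hk

theorem Fb_tri (a b c : Cf) (s : ℝ) : Fb (fun k => ENNReal.ofReal ‖a k - c k‖) s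
    ≤ Fb (fun k => ENNReal.ofReal ‖a k - b k‖) s + Fb (fun k => ENNReal.ofReal ‖b k - c k‖) s := by
  rw [← Fb_add]
  exact Fb_mono (fun k => tri (a k) (b k) (c k)) s

theorem Fb_comm (a b : Cf) (s : ℝ) : Fb (fun k => ENNReal.ofReal ‖a k - b k‖) s
    = Fb (fun k => ENNReal.ofReal ‖b k - a k‖) s := by
  simp_rw [norm_sub_rev]

theorem half_tsum (J : ℕ) : ∑' i : ℕ, ENNReal.ofReal ((1 / 2) ^ (J + 1 + i))
    ≤ ENNReal.ofReal ((1 / 2) ^ J) := by
  have hs : Summable fun i : ℕ => ((1 : ℝ) / 2) ^ (J + 1 + i) := by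
    simp_rw [pow_add _ (J + 1)]
    exact (summable_geometric_of_lt_one (by norm_num) (by norm_num)).mul_left _
  rw [← ENNReal.ofReal_tsum_of_nonneg (fun i => by positivity) hs]
  refine ENNReal.ofReal_le_ofReal (le_of_eq ?_)
  simp_rw [pow_add _ (J + 1)]
  rw [tsum_mul_left, tsum_geometric_of_lt_one (by norm_num) (by norm_num), pow_succ]
  ring

theorem two_pow_coe (i : ℕ) : (2 : ℝ≥0∞) ^ i = ENNReal.ofReal (2 ^ i) := by
  rw [ENNReal.ofReal_pow zero_le_two]
  norm_num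

/-- The sum of the high stages. -/
theorem tail_le {φ : ℝ → ℝ} (hφ : Gauge φ) {μ : Measure ℝ} {X : ℕ → ℝ → ℝ≥0∞} {ε : ℕ → ℝ}
    (hXm : ∀ n, AEMeasurable (X n) μ) (hXε : ∀ n, ∀ᵐ s ∂μ, X n s ≤ ENNReal.ofReal (ε n))
    (hε1 : ∀ n, ε n ≤ (1 / 2) ^ n)
    (hX : ∀ n, ∫⁻ s, Ph φ (ENNReal.ofReal (12 * 2 ^ n) * X n s) ∂μ ≤ ENNReal.ofReal ((1 / 2) ^ n))
    (J : ℕ) :
    (∀ᵐ s ∂μ, ∑' i, 6 * X (J + i) s ≠ ⊤) ∧
    ∫⁻ s, Ph φ (∑' i, 6 * X (J + i) s) ∂μ ≤ ENNReal.ofReal ((1 / 2) ^ J) := by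
  have hXfin : ∀ᵐ s ∂μ, ∀ n, X n s ≤ ENNReal.ofReal ((1 / 2) ^ n) := by
    rw [ae_all_iff]
    intro n
    filter_upwards [hXε n] with s hs
    exact hs.trans (ENNReal.ofReal_le_ofReal (hε1 n))
  have hfin : ∀ᵐ s ∂μ, ∑' i, 6 * X (J + i) s ≠ ⊤ := by
    filter_upwards [hXfin] with s hs
    rw [ENNReal.tsum_mul_left]
    refine ENNReal.mul_ne_top (by norm_num) ?_
    refine ne_top_of_le_ne_top ?_ (ENNReal.tsum_le_tsum fun i => hs (J + i))
    cases J with
    | zero =>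
      have : ∑' i : ℕ, ENNReal.ofReal ((1 / 2) ^ (0 + i)) ≤ ENNReal.ofReal 2 := by
        simp_rw [zero_add]
        rw [← ENNReal.ofReal_tsum_of_nonneg (fun i => by positivity)
          (summable_geometric_of_lt_one (by norm_num) (by norm_num)),
          tsum_geometric_of_lt_one (by norm_num) (by norm_num)]
        norm_num
      exact ne_top_of_le_ne_top ENNReal.ofReal_ne_top this
    | succ J => exact ne_top_of_le_ne_top ENNReal.ofReal_ne_top (half_tsum J)
  refine ⟨hfin, ?_⟩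
  refine (lint_tsum hφ (y := fun i s => 6 * X (J + i) s) (fun i => (hXm _).const_mul _)
    hfin).trans ?_
  have h1 : ∀ i : ℕ, ENNReal.ofReal ((1 / 2) ^ (i + 1))
      * ∫⁻ s, Ph φ (2 ^ (i + 1) * (6 * X (J + i) s)) ∂μ
      ≤ ENNReal.ofReal ((1 / 2) ^ (J + 1 + i)) := by
    intro i
    have h2 : ∫⁻ s, Ph φ (2 ^ (i + 1) * (6 * X (J + i) s)) ∂μ
        ≤ ENNReal.ofReal ((1 / 2) ^ (J + i)) := by
      refine le_trans (lintegral_mono_ae ?_) (hX (J + i))
      filter_upwards [hXfin] with s hs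
      refine Ph_mono hφ ?_ (ENNReal.mul_ne_top ENNReal.ofReal_ne_top
        (ne_top_of_le_ne_top ENNReal.ofReal_ne_top (hs _)))
      rw [← mul_assoc]
      refine mul_le_mul' ?_ le_rfl
      have e6 : (6 : ℝ≥0∞) = ENNReal.ofReal 6 := by norm_num
      rw [two_pow_coe, e6, ← ENNReal.ofReal_mul (by positivity)]
      refine ENNReal.ofReal_le_ofReal ?_
      have h3 : (2 : ℝ) ^ i ≤ 2 ^ (J + i) := pow_le_pow_right₀ (by norm_num) (by omega)
      rw [pow_succ]
      linarith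
    calc ENNReal.ofReal ((1 / 2) ^ (i + 1)) * ∫⁻ s, Ph φ (2 ^ (i + 1) * (6 * X (J + i) s)) ∂μ
        ≤ ENNReal.ofReal ((1 / 2) ^ (i + 1)) * ENNReal.ofReal ((1 / 2) ^ (J + i)) :=
          mul_le_mul' le_rfl h2
      _ = ENNReal.ofReal ((1 / 2) ^ (i + 1) * (1 / 2) ^ (J + i)) :=
          (ENNReal.ofReal_mul (by positivity)).symm
      _ ≤ _ := by
          refine ENNReal.ofReal_le_ofReal ?_
          have h4 : ((1 : ℝ) / 2) ^ (i + 1) * (1 / 2) ^ (J + i)
              = (1 / 2) ^ i * (1 / 2) ^ (J + 1 + i) := by ring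
          rw [h4]
          exact mul_le_of_le_one_left (by positivity) (pow_le_one₀ (by norm_num) (by norm_num))
  exact (ENNReal.tsum_le_tsum h1).trans (half_tsum J)

/-- The Besov clause. -/
theorem besov {φ : ℝ → ℝ} (hφ : Gauge φ) {A : ℕ → ℝ → Cf} {z : ℕ → Cf} {b : ℝ → Cf} {c : Cf}
    {ε : ℕ → ℝ}
    (hlim : ∀ t, 0 < t → ∀ k, Tendsto (fun j => A (j + 1) t k) atTop (𝓝 (b t k)))
    (hst : ∀ n, StpG φ ((1 / 2) ^ n) ((1 / 2) ^ n) (12 * 2 ^ n) (A n) (z n) (ε n) (A (n + 1)))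
    (hε1 : ∀ n, ε n ≤ (1 / 2) ^ n) (hzs : ∀ n, Summable fun k => ‖c k - z n k‖)
    (hzε : ∀ n, ∑' k, ‖c k - z n k‖ ≤ (1 / 2) ^ n) (hc0 : c 0 = 0) (hz0 : ∀ n, z n 0 = 0)
    (hA0 : ∀ n t, 0 ≤ t → A n t 0 = 0)
    (hcon : ∀ n, Tendsto (fun t => ∑' k, ENNReal.ofReal ‖A n t k - A n 0 k‖) (𝓝[>] 0) (𝓝 0)) :
    Tendsto (fun t => ∫⁻ s, Ph φ (Fb (fun k => ENNReal.ofReal ‖b t k - c k‖) s) ∂dss)
      (𝓝[>] 0) (𝓝 0) := by
  choose X hXm hXε hX hone htwo using fun n => (hst n).ex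
  choose E hE0 hEX hEb using hone
  choose E' hE'0 hE'X hE'b using htwo
  obtain ⟨r, hr, herr⟩ := err hφ
  -- the error of the truncations
  have hZ : ∀ n, XE (fun k => ENNReal.ofReal ‖c k - z n k‖) ≤ ENNReal.ofReal ((1 / 2) ^ n) := by
    intro n
    refine XE_of (fun k => norm_nonneg _) (hzs n) (le_trans ?_ (hzε n))
    refine Summable.tsum_le_tsum (fun k => ?_) ?_ (hzs n)
    · by_cases hk : k = 0
      · rw [hk, len_zero, div_zero]
        exact norm_nonneg _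
      · exact div_le_self (norm_nonneg _) (one_le_len hk)
    · refine Summable.of_nonneg_of_le (fun k => div_nonneg (norm_nonneg _) (len_nonneg k))
        (fun k => ?_) (hzs n)
      by_cases hk : k = 0
      · rw [hk, len_zero, div_zero]
        exact norm_nonneg _
      · exact div_le_self (norm_nonneg _) (one_le_len hk)
  -- the error terms of the stage `n + 1`
  set T : ℝ → ℕ → K3 → ℝ≥0∞ := fun t n k => if h : 0 ≤ t then
    E' (n + 1) t h k + E n k + ENNReal.ofReal ‖c k - z (n + 1) k‖ + ENNReal.ofReal ‖c k - z n k‖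
    else 0 with hT
  have hT0 : ∀ t n, T t n 0 = 0 := by
    intro t n
    rw [hT]
    simp only
    split_ifs with h
    · rw [hE'0, hE0, hc0, hz0, hz0]
      simp
    · rfl
  have hTX : ∀ t n, XE (T t n) ≤ ENNReal.ofReal (6 * (1 / 2) ^ (n + 1)) := by
    intro t n
    by_cases h : 0 ≤ t
    · have e : T t n = fun k => E' (n + 1) t h k + E n k + ENNReal.ofReal ‖c k - z (n + 1) k‖
          + ENNReal.ofReal ‖c k - z n k‖ := by
        funext k
        rw [hT]
        simp only [dif_pos h]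
      rw [e, XE_add, XE_add, XE_add]
      calc _ ≤ ENNReal.ofReal ((1 / 2) ^ (n + 1)) + ENNReal.ofReal ((1 / 2) ^ n)
            + ENNReal.ofReal ((1 / 2) ^ (n + 1)) + ENNReal.ofReal ((1 / 2) ^ n) :=
            add_le_add (add_le_add (add_le_add (hE'X _ _ _) (hEX _)) (hZ _)) (hZ _)
        _ = _ := by
            rw [← ENNReal.ofReal_add (by positivity) (by positivity),
              ← ENNReal.ofReal_add (by positivity) (by positivity),
              ← ENNReal.ofReal_add (by positivity) (by positivity)]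
            congr 1
            ring
    · have e : T t n = fun _ => 0 := by
        funext k
        rw [hT]
        simp only [dif_neg h]
      rw [e]
      simp [XE]
  have hstage : ∀ t, 0 < t → ∀ s, 0 < s → ∀ n,
      Fb (fun k => ENNReal.ofReal ‖A (n + 2) t k - A (n + 1) t k‖) s
        ≤ X n s + X (n + 1) s + Fb (T t n) s := by
    intro t ht s hs n
    have e : T t n = fun k => E' (n + 1) t ht.le k + E n k + ENNReal.ofReal ‖c k - z (n + 1) k‖
        + ENNReal.ofReal ‖c k - z n k‖ := by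
      funext k
      rw [hT]
      simp only [dif_pos ht.le]
    have h1 := hE'b (n + 1) t ht.le s hs
    have h2 := (Fb_tri (z (n + 1)) c (A (n + 1) 0) s).trans
      (add_le_add le_rfl (Fb_tri c (z n) (A (n + 1) 0) s))
    have h3 := hEb n s hs
    rw [Fb_comm (z (n + 1)) c, Fb_comm (z n) (A (n + 1) 0)] at h2
    rw [e, Fb_add, Fb_add, Fb_add]
    calc _ ≤ _ := h1
      _ ≤ (Fb (fun k => ENNReal.ofReal ‖c k - z (n + 1) k‖) s
          + (Fb (fun k => ENNReal.ofReal ‖c k - z n k‖) s + (X n s + Fb (E n) s)))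
          + X (n + 1) s + Fb (E' (n + 1) t ht.le) s :=
          add_le_add (add_le_add (h2.trans (add_le_add le_rfl (add_le_add le_rfl h3))) le_rfl)
            le_rfl
      _ = _ := by ring
  -- all errors
  set EE : ℕ → ℝ → K3 → ℝ≥0∞ := fun J t k => (∑' i, T t (J + i) k) + E J k
    + ENNReal.ofReal ‖c k - z J k‖ + ENNReal.ofReal ‖A (J + 1) t k - A (J + 1) 0 k‖ with hEE
  have hmain : ∀ J t, 0 < t → ∀ s, 0 < s →
      Fb (fun k => ENNReal.ofReal ‖b t k - c k‖) s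
        ≤ 3 * (∑' i, X (J + i) s) + Fb (EE J t) s := by
    intro J t ht s hs
    have h1 : Fb (fun k => ENNReal.ofReal ‖b t k - A (J + 1) t k‖) s
        ≤ ∑' i, (X (J + i) s + X (J + i + 1) s + Fb (T t (J + i)) s) := by
      refine (Fb_mono (fun k => tel (hlim t ht) (J + 1) k) s).trans ?_
      rw [Fb_tsum]
      refine ENNReal.tsum_le_tsum fun i => ?_
      have e1 : J + 1 + i + 1 = J + i + 2 := by omega
      have e2 : J + 1 + i = J + i + 1 := by omega
      rw [e1, e2]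
      exact hstage t ht s hs (J + i)
    have h2 : ∑' i, X (J + i + 1) s ≤ ∑' i, X (J + i) s := by
      have := ENNReal.tsum_comp_le_tsum_of_injective (f := fun i : ℕ => i + 1)
        (add_left_injective 1) (fun i => X (J + i) s)
      simpa [add_assoc] using this
    have h3 : X J s ≤ ∑' i, X (J + i) s := by
      have := ENNReal.le_tsum (f := fun i => X (J + i) s) 0
      simpa using this
    have h4 := (Fb_tri (b t) (A (J + 1) t) c s).trans
      (add_le_add le_rfl ((Fb_tri (A (J + 1) t) (A (J + 1) 0) c s).trans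
        (add_le_add le_rfl (Fb_tri (A (J + 1) 0) (z J) c s))))
    rw [Fb_comm (z J) c] at h4
    have h5 := hEb J s hs
    have e : Fb (EE J t) s = (∑' i, Fb (T t (J + i)) s) + Fb (E J) s
        + Fb (fun k => ENNReal.ofReal ‖c k - z J k‖) s
        + Fb (fun k => ENNReal.ofReal ‖A (J + 1) t k - A (J + 1) 0 k‖) s := by
      rw [hEE]
      simp only
      rw [Fb_add, Fb_add, Fb_add, Fb_tsum]
    rw [e]
    rw [ENNReal.tsum_add, ENNReal.tsum_add] at h1
    calc _ ≤ _ := h4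
      _ ≤ ((∑' i, X (J + i) s) + (∑' i, X (J + i) s) + ∑' i, Fb (T t (J + i)) s)
          + (Fb (fun k => ENNReal.ofReal ‖A (J + 1) t k - A (J + 1) 0 k‖) s
          + (((∑' i, X (J + i) s) + Fb (E J) s)
          + Fb (fun k => ENNReal.ofReal ‖c k - z J k‖) s)) := by
          refine add_le_add (h1.trans (add_le_add (add_le_add le_rfl h2) le_rfl))
            (add_le_add le_rfl (add_le_add (h5.trans (add_le_add h3 le_rfl)) le_rfl))
      _ = _ := by ring
  have hEE0 : ∀ J t, 0 < t → EE J t 0 = 0 := by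
    intro J t ht
    rw [hEE]
    simp only
    rw [hE0, hc0, hz0, hA0 _ t ht.le, hA0 _ 0 le_rfl]
    simp [hT0]
  have hEEX : ∀ J t, 0 < t → XE (EE J t) ≤ ENNReal.ofReal (8 * (1 / 2) ^ J)
      + ∑' k, ENNReal.ofReal ‖A (J + 1) t k - A (J + 1) 0 k‖ := by
    intro J t ht
    have e : XE (EE J t) = (∑' i, XE (T t (J + i))) + XE (E J)
        + XE (fun k => ENNReal.ofReal ‖c k - z J k‖)
        + XE (fun k => ENNReal.ofReal ‖A (J + 1) t k - A (J + 1) 0 k‖) := by
      rw [hEE]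
      simp only
      rw [XE_add, XE_add, XE_add, XE_tsum]
    rw [e]
    have h1 : ∑' i, XE (T t (J + i)) ≤ ENNReal.ofReal (6 * (1 / 2) ^ J) := by
      calc ∑' i, XE (T t (J + i)) ≤ ∑' i : ℕ, ENNReal.ofReal 6
            * ENNReal.ofReal ((1 / 2) ^ (J + 1 + i)) := by
            refine ENNReal.tsum_le_tsum fun i => (hTX t (J + i)).trans (le_of_eq ?_)
            rw [← ENNReal.ofReal_mul (by norm_num)]
            congr 3
            omega
        _ = ENNReal.ofReal 6 * ∑' i : ℕ, ENNReal.ofReal ((1 / 2) ^ (J + 1 + i)) :=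
            ENNReal.tsum_mul_left
        _ ≤ ENNReal.ofReal 6 * ENNReal.ofReal ((1 / 2) ^ J) :=
            mul_le_mul' le_rfl (half_tsum J)
        _ = _ := (ENNReal.ofReal_mul (by norm_num)).symm
    have h2 : XE (fun k => ENNReal.ofReal ‖A (J + 1) t k - A (J + 1) 0 k‖)
        ≤ ∑' k, ENNReal.ofReal ‖A (J + 1) t k - A (J + 1) 0 k‖ := by
      refine XE_le_tsum ?_
      rw [hA0 _ t ht.le, hA0 _ 0 le_rfl]
      simp
    calc _ ≤ ENNReal.ofReal (6 * (1 / 2) ^ J) + ENNReal.ofReal ((1 / 2) ^ J)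
          + ENNReal.ofReal ((1 / 2) ^ J)
          + ∑' k, ENNReal.ofReal ‖A (J + 1) t k - A (J + 1) 0 k‖ :=
          add_le_add (add_le_add (add_le_add h1 (hEX J)) (hZ J)) h2
      _ = _ := by
          rw [← ENNReal.ofReal_add (by positivity) (by positivity),
            ← ENNReal.ofReal_add (by positivity) (by positivity)]
          congr 2
          ring
  rw [ENNReal.tendsto_nhds_zero]
  intro η hη
  -- the choice of the stage
  have p0 : Tendsto (fun J : ℕ => ((1 : ℝ) / 2) ^ J) atTop (𝓝 0) :=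
    tendsto_pow_atTop_nhds_zero_of_lt_one (by norm_num) (by norm_num)
  have p1 : Tendsto (fun J : ℕ => 9 * ((1 : ℝ) / 2) ^ J) atTop (𝓝 0) := by
    simpa using p0.const_mul 9
  have p2 : Tendsto (fun J : ℕ => ENNReal.ofReal ((1 / 2) ^ J
      + 4 * (9 * (1 / 2) ^ J) * (9 * (1 / 2) ^ J))) atTop (𝓝 0) := by
    have h1 : Tendsto (fun J : ℕ => ((1 : ℝ) / 2) ^ J
        + 4 * (9 * (1 / 2) ^ J) * (9 * (1 / 2) ^ J)) atTop (𝓝 (0 + 4 * 0 * 0)) :=
      p0.add ((p1.const_mul 4).mul p1)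
    have h2 := (ENNReal.continuous_ofReal.tendsto _).comp h1
    have e : ENNReal.ofReal (0 + 4 * 0 * 0) = 0 := by simp
    rw [e] at h2
    exact h2
  obtain ⟨J, hJ1, hJ2⟩ := ((p1.eventually_le_const hr).and
    ((ENNReal.tendsto_nhds_zero.1 p2) η hη)).exists
  have hJ0 : (0 : ℝ) < (1 / 2) ^ J := by positivity
  have hJe : (0 : ℝ≥0∞) < ENNReal.ofReal ((1 / 2) ^ J) := ENNReal.ofReal_pos.2 hJ0
  filter_upwards [(ENNReal.tendsto_nhds_zero.1 (hcon (J + 1))) _ hJe, self_mem_nhdsWithin]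
    with t ht ht0
  have ht0' : 0 < t := ht0
  have hXE : XE (EE J t) ≤ ENNReal.ofReal (9 * (1 / 2) ^ J) := by
    refine (hEEX J t ht0').trans ?_
    calc _ ≤ ENNReal.ofReal (8 * (1 / 2) ^ J) + ENNReal.ofReal ((1 / 2) ^ J) :=
          add_le_add le_rfl ht
      _ = _ := by
          rw [← ENNReal.ofReal_add (by positivity) (by positivity)]
          congr 1
          ring
  obtain ⟨hf, htail⟩ := tail_le hφ (μ := dss) (fun n => (hXm n).aemeasurable)
    (fun n => dss_ae fun s hs => hXε n s hs) hε1 hX J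
  have h6 : ∀ᵐ s ∂dss, Ph φ (Fb (fun k => ENNReal.ofReal ‖b t k - c k‖) s)
      ≤ Ph φ (∑' i, 6 * X (J + i) s) + Ph φ (2 * Fb (EE J t) s) := by
    filter_upwards [hf, dss_ae (p := fun s => 0 < s) fun s hs => hs] with s hs hs0
    have e6 : ∑' i, 6 * X (J + i) s = 2 * (3 * ∑' i, X (J + i) s) := by
      rw [ENNReal.tsum_mul_left, ← mul_assoc]
      norm_num
    have hF : Fb (EE J t) s ≠ ⊤ := ne_top_of_le_ne_top ENNReal.ofReal_ne_top
      ((Fb_le_XE (hEE0 J t ht0') hs0).trans hXE)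
    have h3 : 3 * ∑' i, X (J + i) s ≠ ⊤ := by
      intro h
      rw [e6, h] at hs
      exact hs (by simp)
    rw [e6]
    exact (Ph_mono hφ (hmain J t ht0' s hs0) (ENNReal.add_ne_top.2 ⟨h3, hF⟩)).trans
      (Ph_add hφ h3 hF)
  have h7 : Measurable fun s => Ph φ (2 * Fb (EE J t) s) :=
    (Ph_meas hφ).comp ((Fb_meas _).const_mul _)
  calc ∫⁻ s, Ph φ (Fb (fun k => ENNReal.ofReal ‖b t k - c k‖) s) ∂dss
      ≤ ∫⁻ s, (Ph φ (∑' i, 6 * X (J + i) s) + Ph φ (2 * Fb (EE J t) s)) ∂dss :=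
        lintegral_mono_ae h6
    _ = ∫⁻ s, Ph φ (∑' i, 6 * X (J + i) s) ∂dss + ∫⁻ s, Ph φ (2 * Fb (EE J t) s) ∂dss :=
        lintegral_add_right _ h7
    _ ≤ ENNReal.ofReal ((1 / 2) ^ J)
        + ENNReal.ofReal (4 * (9 * (1 / 2) ^ J) * (9 * (1 / 2) ^ J)) :=
        add_le_add htail (herr _ (hEE0 J t ht0') _ (by positivity) hJ1 hXE)
    _ = ENNReal.ofReal ((1 / 2) ^ J + 4 * (9 * (1 / 2) ^ J) * (9 * (1 / 2) ^ J)) :=
        (ENNReal.ofReal_add (by positivity) (by positivity)).symm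
    _ ≤ η := hJ2

/-- `besGC` by the extended values. -/
theorem besGC_eq {φ : ℝ → ℝ} (hφ : Gauge φ) (x : K3 → ℝ) (hx : ∀ k, 0 ≤ x k) :
    besGC φ x = ∫⁻ s, Ph φ (Fb (fun k => ENNReal.ofReal (x k)) s) ∂dss := by
  have hm : Measurable fun s => Ph φ (Fb (fun k => ENNReal.ofReal (x k)) s) :=
    (Ph_meas hφ).comp (Fb_meas _)
  rw [lintegral_dss hm, besGC]
  refine lintegral_congr fun s => ?_
  congr 2
  rw [Fb, ENNReal.toReal_mul, ENNReal.toReal_ofReal (Real.sqrt_nonneg _),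
    ENNReal.tsum_toReal_eq fun k => ENNReal.mul_ne_top ENNReal.ofReal_ne_top
      ENNReal.ofReal_ne_top]
  congr 2
  refine tsum_congr fun k => ?_
  rw [ENNReal.toReal_mul, ENNReal.toReal_ofReal (h744.GS.ht_pos s k).le,
    ENNReal.toReal_ofReal (hx k)]

/-- A bounded field does not matter. -/
theorem const_mu1 {φ : ℝ → ℝ} (hφ : Gauge φ) {M : ℝ} (hM : 0 ≤ M) :
    ∫⁻ t, Ph φ (2 * (ENNReal.ofReal (Real.sqrt t) * ENNReal.ofReal M)) ∂mu1 ≠ ⊤ := by
  obtain ⟨r, hr, h1⟩ := hφ.quad_small (η := 1) one_pos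
  set C : ℝ := 4 * M ^ 2 + φ (2 * M) * (2 * M / r) ^ 2 with hC
  have hφM := hφ.nonneg (2 * M) (by positivity)
  have hC0 : 0 ≤ C := by positivity
  have h2 : ∀ t, 0 < t → t ≤ 1 → φ (2 * (Real.sqrt t * M)) ≤ C * t := by
    intro t ht ht1
    have hst := Real.sqrt_nonneg t
    have hst1 : Real.sqrt t ≤ 1 := Real.sqrt_le_one.2 ht1
    have hsq : Real.sqrt t ^ 2 = t := Real.sq_sqrt ht.le
    rcases le_total (2 * (Real.sqrt t * M)) r with h3 | h3
    · have h4 := h1 _ (by positivity) h3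
      have e : 1 * (2 * (Real.sqrt t * M)) ^ 2 = 4 * M ^ 2 * Real.sqrt t ^ 2 := by ring
      rw [e, hsq] at h4
      refine h4.trans (mul_le_mul_of_nonneg_right ?_ ht.le)
      rw [hC]
      have : 0 ≤ φ (2 * M) * (2 * M / r) ^ 2 := by positivity
      linarith
    · have h4 : φ (2 * (Real.sqrt t * M)) ≤ φ (2 * M) := by
        refine hφ.mono (by positivity) ?_
        have := mul_le_of_le_one_left hM hst1
        linarith
      have h5 : 1 ≤ (2 * M / r) ^ 2 * t := by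
        have h6 : 1 ≤ 2 * (Real.sqrt t * M) / r := (one_le_div hr).2 h3
        have h7 : 1 ≤ (2 * (Real.sqrt t * M) / r) ^ 2 := one_le_pow₀ h6
        have e : (2 * (Real.sqrt t * M) / r) ^ 2 = (2 * M / r) ^ 2 * Real.sqrt t ^ 2 := by
          field_simp
        rwa [e, hsq] at h7
      refine h4.trans ?_
      calc φ (2 * M) ≤ φ (2 * M) * ((2 * M / r) ^ 2 * t) := le_mul_of_one_le_right hφM h5
        _ = φ (2 * M) * (2 * M / r) ^ 2 * t := by ring
        _ ≤ C * t := by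
            refine mul_le_mul_of_nonneg_right ?_ ht.le
            rw [hC]
            have : 0 ≤ 4 * M ^ 2 := by positivity
            linarith
  have hsm : Measurable fun t : ℝ => ENNReal.ofReal (Real.sqrt t) :=
    ENNReal.measurable_ofReal.comp Real.continuous_sqrt.measurable
  have hm : AEMeasurable (fun t : ℝ =>
      Ph φ (2 * (ENNReal.ofReal (Real.sqrt t) * ENNReal.ofReal M)))
      (volume.restrict (Ioc (0 : ℝ) 1)) :=
    ((Ph_meas hφ).comp ((hsm.mul_const _).const_mul _)).aemeasurable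
  rw [lintegral_mu1 hm]
  have h3 : ∀ t ∈ Ioc (0 : ℝ) 1, Ph φ (2 * (ENNReal.ofReal (Real.sqrt t) * ENNReal.ofReal M))
      / ENNReal.ofReal t ≤ ENNReal.ofReal C := by
    intro t ht
    rw [Ph, ENNReal.toReal_mul, ENNReal.toReal_mul, ENNReal.toReal_ofReal (Real.sqrt_nonneg _),
      ENNReal.toReal_ofReal hM, ← ENNReal.ofReal_div_of_pos ht.1]
    have e2 : ENNReal.toReal 2 = 2 := by norm_num
    rw [e2]
    refine ENNReal.ofReal_le_ofReal ?_
    rw [div_le_iff₀ ht.1]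
    exact h2 t ht.1 ht.2
  refine ne_top_of_le_ne_top ?_ (setLIntegral_mono' measurableSet_Ioc h3)
  rw [lintegral_const, Measure.restrict_apply_univ, Real.volume_Ioc]
  exact ENNReal.mul_ne_top ENNReal.ofReal_ne_top ENNReal.ofReal_ne_top

end Pool.Agent.Run7.h969.WS
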