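import Pool.Agent.Run7.h969.WS.Fam

/-!
Layers: telescoping, and pointwise bounds.
-/

set_option autoImplicit false

open MeasureTheory Set Filter Topology
open scoped ContDiff ComplexConjugate NNReal

namespace Pool.Agent.Run7.h969.WS

open H459R3.NS Pool.Agent.Run7.h782 Pool.Agent.Run7.h782.GD Pool.Agent.Run7.h782.GS
open Pool.Agent.Run7.h969.GG Pool.Agent.Run7.h782.WS

theorem ht_pos' (r : ℝ) (k : K3) : 0 < ht r k := Real.exp_pos _

/-! ### Homogeneity of the antidivergence norm -/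

theorem anti_smul (c : ℝ) (w : Cf) (i j : Fin 3) (k : K3) :
    anti ((c : ℂ) • w) i j k = (c : ℂ) * anti w i j k := by
  simp only [anti, Pi.smul_apply, smul_eq_mul]
  ring

theorem al_smul {c : ℝ} (hc : 0 ≤ c) (w : Cf) : al ((c : ℂ) • w) = c * al w := by
  unfold al
  rw [Finset.mul_sum]
  refine Finset.sum_congr rfl fun i _ => ?_
  rw [Finset.mul_sum]
  refine Finset.sum_congr rfl fun j _ => ?_
  rw [← integral_const_mul]
  congr 1
  funext x
  have e : S (anti ((c : ℂ) • w) i j) x = (c : ℂ) * S (anti w i j) x := by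
    unfold S
    rw [← tsum_mul_left]
    refine tsum_congr fun k => ?_
    rw [anti_smul, mul_assoc]
  rw [e, norm_mul, Complex.norm_real, Real.norm_of_nonneg hc]

theorem wv_smul (M : ℕ) (n : K3) (c : ℂ) (s : Cf) : wv M n (c • s) = c • wv M n s := by
  funext k
  rw [Pi.smul_apply, wv, wv, Pi.smul_apply, Pi.smul_apply, prj_smul, prj_smul, smul_add]

/-! ### Telescoping -/

section
variable {J : ℕ} {n : Fin J → K3} {nm : ℝ} {K : ℕ}

theorem LL_low (hJ : 0 < J) (hn0 : ∀ j, n j ≠ 0) (hnm : ∀ j, len (n j) ≤ nm) (hK : 0 < K)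
    (hKn : nm ≤ K) (j : Fin J) (l : ℕ) : LL n K ⟨0, hJ⟩ l ≤ LL n K j l := by
  have hKr : (1 : ℝ) ≤ K := by exact_mod_cast hK
  by_cases hj : (j : ℕ) = 0
  · have : j = ⟨0, hJ⟩ := Fin.ext hj
    rw [this]
  · have h1 : LL n K ⟨0, hJ⟩ l = (K : ℝ) ^ (J * l + 1) * len (n ⟨0, hJ⟩) := by
      simp only [LL, zero_add]
    have h2 : LL n K j l = (K : ℝ) ^ (J * l + 1) * ((K : ℝ) ^ (j : ℕ) * len (n j)) := by
      unfold LL
      rw [show (j : ℕ) + J * l + 1 = (J * l + 1) + j by ring, pow_add]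
      ring
    rw [h1, h2]
    refine mul_le_mul_of_nonneg_left ?_ (by positivity)
    have h3 : (K : ℝ) ≤ (K : ℝ) ^ (j : ℕ) := le_self_pow₀ hKr hj
    have h4 := one_le_len (hn0 j)
    calc len (n ⟨0, hJ⟩) ≤ K := (hnm _).trans hKn
      _ ≤ (K : ℝ) ^ (j : ℕ) := h3
      _ ≤ _ := le_mul_of_one_le_right (by positivity) h4

theorem LL_high (hJ : 0 < J) (hn0 : ∀ j, n j ≠ 0) (hnm : ∀ j, len (n j) ≤ nm) (hK : 0 < K)
    (hKn : nm ≤ K) (j : Fin J) (l : ℕ) : LL n K j l ≤ LL n K ⟨0, hJ⟩ (l + 1) := by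
  have hKr : (1 : ℝ) ≤ K := by exact_mod_cast hK
  have h1 : LL n K ⟨0, hJ⟩ (l + 1) = (K : ℝ) ^ (J * l + 1) * ((K : ℝ) ^ J * len (n ⟨0, hJ⟩)) := by
    simp only [LL, zero_add]
    rw [show J * (l + 1) + 1 = (J * l + 1) + J by ring, pow_add]
    ring
  have h2 : LL n K j l = (K : ℝ) ^ (J * l + 1) * ((K : ℝ) ^ (j : ℕ) * len (n j)) := by
    unfold LL
    rw [show (j : ℕ) + J * l + 1 = (J * l + 1) + j by ring, pow_add]
    ring
  rw [h1, h2]
  refine mul_le_mul_of_nonneg_left ?_ (by positivity)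
  have h3 : (K : ℝ) ^ (j : ℕ) * K ≤ (K : ℝ) ^ J := by
    rw [← pow_succ]
    exact pow_le_pow_right₀ hKr j.2
  have h4 := one_le_len (hn0 ⟨0, hJ⟩)
  calc (K : ℝ) ^ (j : ℕ) * len (n j) ≤ (K : ℝ) ^ (j : ℕ) * K :=
        mul_le_mul_of_nonneg_left ((hnm _).trans hKn) (by positivity)
    _ ≤ (K : ℝ) ^ J := h3
    _ ≤ _ := le_mul_of_one_le_right (by positivity) h4

/-- The factor of one stress. -/
noncomputable def ex (ν : ℝ) (n : Fin J → K3) (K : ℕ) (t : ℝ) (j : Fin J) (l : ℕ) : ℝ :=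
  Real.exp (-(2 * (2 * Real.pi * Real.sqrt ν * LL n K j l) ^ 2 * t))

theorem ex_tele {ν : ℝ} (hJ : 0 < J) (hn0 : ∀ j, n j ≠ 0) (hnm : ∀ j, len (n j) ≤ nm)
    (hK : 0 < K) (hKn : nm ≤ K) {t : ℝ} (ht : 0 ≤ t) (j : Fin J) (N : ℕ) :
    |∑ l ∈ Finset.range N, (ex ν n K t j l - ex ν n K t ⟨0, hJ⟩ l)| ≤ 1 := by
  have hpi := Real.pi_pos
  have hsν := Real.sqrt_nonneg ν
  have mono : ∀ (x y : ℝ), 0 ≤ x → x ≤ y →
      Real.exp (-(2 * (2 * Real.pi * Real.sqrt ν * y) ^ 2 * t))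
        ≤ Real.exp (-(2 * (2 * Real.pi * Real.sqrt ν * x) ^ 2 * t)) := by
    intro x y hx hxy
    refine Real.exp_le_exp.2 (neg_le_neg ?_)
    refine mul_le_mul_of_nonneg_right ?_ ht
    refine mul_le_mul_of_nonneg_left ?_ (by norm_num)
    exact pow_le_pow_left₀ (by positivity) (mul_le_mul_of_nonneg_left hxy (by positivity)) 2
  have h1 : ∀ l, ex ν n K t j l ≤ ex ν n K t ⟨0, hJ⟩ l := fun l =>
    mono _ _ (LL_nonneg K _ l) (LL_low hJ hn0 hnm hK hKn j l)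
  have h2 : ∀ l, ex ν n K t ⟨0, hJ⟩ (l + 1) ≤ ex ν n K t j l := fun l =>
    mono _ _ (LL_nonneg K _ l) (LL_high hJ hn0 hnm hK hKn j l)
  have h3 : ∑ l ∈ Finset.range N, (ex ν n K t ⟨0, hJ⟩ l - ex ν n K t j l)
      ≤ ∑ l ∈ Finset.range N, (ex ν n K t ⟨0, hJ⟩ l - ex ν n K t ⟨0, hJ⟩ (l + 1)) :=
    Finset.sum_le_sum fun l _ => sub_le_sub_left (h2 l) _
  rw [Finset.sum_range_sub'] at h3
  have h4 : ex ν n K t ⟨0, hJ⟩ 0 ≤ 1 := by
    refine Real.exp_le_one_iff.2 ?_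
    have : 0 ≤ 2 * (2 * Real.pi * Real.sqrt ν * LL n K ⟨0, hJ⟩ 0) ^ 2 * t := by positivity
    linarith
  have h5 : 0 ≤ ex ν n K t ⟨0, hJ⟩ N := (Real.exp_pos _).le
  have h6 : 0 ≤ ∑ l ∈ Finset.range N, (ex ν n K t ⟨0, hJ⟩ l - ex ν n K t j l) :=
    Finset.sum_nonneg fun l _ => sub_nonneg.2 (h1 l)
  have e : ∑ l ∈ Finset.range N, (ex ν n K t j l - ex ν n K t ⟨0, hJ⟩ l)
      = -∑ l ∈ Finset.range N, (ex ν n K t ⟨0, hJ⟩ l - ex ν n K t j l) := by
    rw [← Finset.sum_neg_distrib]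
    exact Finset.sum_congr rfl fun l _ => by ring
  rw [e, abs_neg, abs_of_nonneg h6]
  linarith

theorem rj_fp {N : ℕ} (ν : ℝ) (l : Fin N) (j : Fin J) :
    rj ν (nn n N) K (finProdFinEquiv (l, j)) = 2 * Real.pi * Real.sqrt ν * LL n K j l := by
  rw [rj, len_fp]

/-- The low part of the layers. -/
theorem lo_layers {N : ℕ} (ν : ℝ) (s : Fin J → Cf) (t : ℝ) (k : K3) :
    lo ν (nn n N) (ss s N) 0 K t k
      = ∑ j, ((1 / N * ∑ l ∈ Finset.range N, ex ν n K t j l : ℝ) : ℂ) • nl (s j) (s j) k := by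
  rw [lo, Pi.add_apply, Finset.sum_apply, smul_zero, Pi.zero_apply, add_zero, sum_fp,
    Finset.sum_comm]
  refine Finset.sum_congr rfl fun j _ => ?_
  have h1 : ∀ l : Fin N, (((Real.exp (-(2 * rj ν (nn n N) K (finProdFinEquiv (l, j)) ^ 2 * t)) : ℝ)
      : ℂ) • qq (ss s N) (finProdFinEquiv (l, j))) k
      = ((1 / N * ex ν n K t j l : ℝ) : ℂ) • nl (s j) (s j) k := by
    intro l
    rw [Pi.smul_apply, qq_ss, Equiv.symm_apply_apply, rj_fp, Pi.smul_apply, smul_smul,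
      ← Complex.ofReal_mul, ex]
    congr 2
    ring
  simp_rw [h1]
  rw [Fin.sum_univ_eq_sum_range fun l => ((1 / N * ex ν n K t j l : ℝ) : ℂ) • nl (s j) (s j) k,
    ← Finset.sum_smul]
  congr 1
  push_cast
  rw [Finset.mul_sum]

/-- The low part stays near a multiple of the whole field. -/
theorem lo_near {N : ℕ} {ν : ℝ} (hJ : 0 < J) (hn0 : ∀ j, n j ≠ 0) (hnm : ∀ j, len (n j) ≤ nm)
    (hK : 0 < K) (hKn : nm ≤ K) (hN : 0 < N) (s : Fin J → Cf) {t : ℝ} (ht : 0 ≤ t) (k : K3) :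
    ‖lo ν (nn n N) (ss s N) 0 K t k‖
      ≤ ‖∑ j, nl (s j) (s j) k‖ + 1 / N * ∑ j, ‖nl (s j) (s j) k‖ := by
  have hNr : (0 : ℝ) < N := by exact_mod_cast hN
  set G : Fin J → ℝ := fun j => 1 / N * ∑ l ∈ Finset.range N, ex ν n K t j l with hG
  have hG0 : 0 ≤ G ⟨0, hJ⟩ := by
    rw [hG]
    exact mul_nonneg (by positivity) (Finset.sum_nonneg fun l _ => (Real.exp_pos _).le)
  have hG1 : G ⟨0, hJ⟩ ≤ 1 := by
    rw [hG]
    simp only
    have h1 : ∑ l ∈ Finset.range N, ex ν n K t ⟨0, hJ⟩ l ≤ ∑ _l ∈ Finset.range N, (1 : ℝ) := by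
      refine Finset.sum_le_sum fun l _ => Real.exp_le_one_iff.2 ?_
      have : 0 ≤ 2 * (2 * Real.pi * Real.sqrt ν * LL n K ⟨0, hJ⟩ l) ^ 2 * t := by positivity
      linarith
    rw [Finset.sum_const, Finset.card_range, nsmul_eq_mul, mul_one] at h1
    rw [one_div, inv_mul_le_iff₀ hNr, mul_one]
    exact h1
  have hGd : ∀ j, |G j - G ⟨0, hJ⟩| ≤ 1 / N := by
    intro j
    have e : G j - G ⟨0, hJ⟩
        = 1 / N * ∑ l ∈ Finset.range N, (ex ν n K t j l - ex ν n K t ⟨0, hJ⟩ l) := by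
      rw [hG]
      simp only
      rw [Finset.sum_sub_distrib]
      ring
    rw [e, abs_mul, abs_of_nonneg (by positivity : (0 : ℝ) ≤ 1 / N)]
    exact mul_le_of_le_one_right (by positivity) (ex_tele hJ hn0 hnm hK hKn ht j N)
  rw [lo_layers]
  have e : ∑ j, ((1 / N * ∑ l ∈ Finset.range N, ex ν n K t j l : ℝ) : ℂ) • nl (s j) (s j) k
      = ((G ⟨0, hJ⟩ : ℝ) : ℂ) • ∑ j, nl (s j) (s j) k
        + ∑ j, ((G j - G ⟨0, hJ⟩ : ℝ) : ℂ) • nl (s j) (s j) k := by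
    rw [Finset.smul_sum, ← Finset.sum_add_distrib]
    refine Finset.sum_congr rfl fun j _ => ?_
    rw [← add_smul, ← Complex.ofReal_add]
    congr 2
    rw [hG]
    ring
  rw [e]
  refine (norm_add_le _ _).trans (add_le_add ?_ ?_)
  · rw [norm_smul, Complex.norm_real, Real.norm_of_nonneg hG0]
    exact mul_le_of_le_one_left (norm_nonneg _) hG1
  · rw [Finset.mul_sum]
    refine (norm_sum_le _ _).trans (Finset.sum_le_sum fun j _ => ?_)
    rw [norm_smul, Complex.norm_real, Real.norm_eq_abs]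
    exact mul_le_mul_of_nonneg_right (hGd j) (norm_nonneg _)

end

/-! ### Pointwise bounds -/

section
variable {J : ℕ} {ν : ℝ} {n : Fin J → K3} {s : Fin J → Cf} {P : Finset K3} {z' : Cf}
  {Λ nm : ℝ} {N : ℕ}
variable (D : Dat n s P z' Λ nm) (hν : 0 < ν) (hN : 0 < N) (hNΛ : 2 * Λ ≤ N)
include D hν hN

theorem Yb_lo (B : Finset K3) {t : ℝ} (ht : 0 ≤ t) :
    Yb B (lo ν n s z' N t) ≤ Real.exp (-(ls ν N * t)) * Q1 s z' := by
  rw [lo, Q1, mul_add]
  refine (Yb_add B _ _).trans (add_le_add ((Yb_sum B _ _).trans ?_) ?_)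
  · rw [Finset.mul_sum]
    refine Finset.sum_le_sum fun j _ => ?_
    rw [Yb_smul, abs_of_pos (Real.exp_pos _)]
    refine mul_le_mul (e2_le D hν hN ht j) ?_ ?_ (Real.exp_pos _).le
    · exact (summable_len_of_supp (supp_qq D j)).sum_le_tsum B fun k _ =>
        mul_nonneg (len_nonneg k) (norm_nonneg _)
    · exact Finset.sum_nonneg fun k _ => mul_nonneg (len_nonneg k) (norm_nonneg _)
  · rw [Yb_smul, abs_of_pos (Real.exp_pos _)]
    refine mul_le_mul_of_nonneg_left ?_ (Real.exp_pos _).le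
    exact (summable_len_of_supp D.zP).sum_le_tsum B fun k _ =>
      mul_nonneg (len_nonneg k) (norm_nonneg _)

include hNΛ

theorem Yb_hi (B : Finset K3) (t : ℝ) :
    Yb B (hi ν n s N t) ≤ ∑ j, am ν n N t j * (16 * len (Mj N j • n j) * N0 (s j)) := by
  rw [hi]
  refine (Yb_sum B _ _).trans (Finset.sum_le_sum fun j _ => ?_)
  rw [Yb_smul, abs_of_nonneg (am_nonneg D hν hN t j)]
  exact mul_le_mul_of_nonneg_left (Yb_ww D hν hN hNΛ B j) (am_nonneg D hν hN t j)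

theorem ht_hi (B : Finset K3) {t r : ℝ} (ht : 0 ≤ t) (hr : 0 ≤ r) :
    ∑ k ∈ B, GS.ht r k * ‖hi ν n s N t k‖
      ≤ ∑ j, 16 * Real.sqrt ν * N0 (s j) * ((Real.pi * len (Mj N j • n j))
        * Real.exp (-((Real.pi * len (Mj N j • n j)) ^ 2 * r))) := by
  have h1 : ∀ k, GS.ht r k * ‖hi ν n s N t k‖
      ≤ ∑ j, am ν n N t j * (GS.ht r k * ‖ww n s N j k‖) := by
    intro k
    rw [hi, Finset.sum_apply]
    refine (mul_le_mul_of_nonneg_left (norm_sum_le _ _) (ht_pos' r k).le).trans ?_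
    rw [Finset.mul_sum]
    refine Finset.sum_le_sum fun j _ => le_of_eq ?_
    rw [Pi.smul_apply, norm_smul, Complex.norm_real, Real.norm_of_nonneg
      (am_nonneg D hν hN t j)]
    ring
  refine (Finset.sum_le_sum fun k _ => h1 k).trans ?_
  rw [Finset.sum_comm]
  refine Finset.sum_le_sum fun j _ => ?_
  rw [← Finset.mul_sum]
  have h2 := sum_ht_ww D hN hNΛ B hr j
  have h3 : am ν n N t j ≤ rj ν n N j := by
    rw [am]
    refine mul_le_of_le_one_right (rj_pos D hν hN j).le (Real.exp_le_one_iff.2 ?_)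
    nlinarith [mul_nonneg (sq_nonneg (rj ν n N j)) ht]
  have h4 := N0_nonneg (s j)
  have h5 := Real.exp_pos (-((Real.pi * len (Mj N j • n j)) ^ 2 * r))
  calc am ν n N t j * ∑ k ∈ B, GS.ht r k * ‖ww n s N j k‖
      ≤ rj ν n N j * (Real.exp (-((Real.pi * len (Mj N j • n j)) ^ 2 * r)) * (8 * N0 (s j))) :=
        mul_le_mul h3 h2 (Finset.sum_nonneg fun k _ =>
          mul_nonneg (ht_pos' r k).le (norm_nonneg _)) (rj_pos D hν hN j).le
    _ = _ := by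
        rw [rj]
        ring

end

end Pool.Agent.Run7.h969.WS
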