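import Pool.Agent.Run7.h969.WS.Asm

/-!
Layers: bounds in time.
-/

set_option autoImplicit false

open MeasureTheory Set Filter Topology
open scoped ContDiff ComplexConjugate NNReal

namespace Pool.Agent.Run7.h969.WS

open H459R3.NS Pool.Agent.Run7.h782 Pool.Agent.Run7.h782.GD Pool.Agent.Run7.h782.GS
open Pool.Agent.Run7.h969.GG Pool.Agent.Run7.h782.WS

theorem x_exp {x : ℝ} : x * Real.exp (-x) ≤ 1 := by
  have h1 := Real.add_one_le_exp x
  have h2 : Real.exp (-x) * Real.exp x = 1 := by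
    rw [← Real.exp_add, neg_add_cancel, Real.exp_zero]
  have h3 := Real.exp_pos (-x)
  calc x * Real.exp (-x) ≤ Real.exp x * Real.exp (-x) :=
        mul_le_mul_of_nonneg_right (by linarith) h3.le
    _ = 1 := by rw [mul_comm, h2]

theorem y_exp {y : ℝ} : y * Real.exp (-(y ^ 2)) ≤ 1 := by
  have h1 := Real.add_one_le_exp (y ^ 2)
  have h2 : Real.exp (-(y ^ 2)) * Real.exp (y ^ 2) = 1 := by
    rw [← Real.exp_add, neg_add_cancel, Real.exp_zero]
  have h3 := Real.exp_pos (-(y ^ 2))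
  have h4 : y ≤ y ^ 2 + 1 := by nlinarith [sq_nonneg (y - 1)]
  calc y * Real.exp (-(y ^ 2)) ≤ Real.exp (y ^ 2) * Real.exp (-(y ^ 2)) :=
        mul_le_mul_of_nonneg_right (by linarith) h3.le
    _ = 1 := by rw [mul_comm, h2]

section
variable {J : ℕ} {ν : ℝ} {n : Fin J → K3} {s : Fin J → Cf} {P : Finset K3} {z' : Cf}
  {Λ nm : ℝ} {N : ℕ}
variable (D : Dat n s P z' Λ nm) (hν : 0 < ν) (hN : 0 < N)
include D hν hN

/-- Integrals of squares. -/
theorem int_sq {y : Fin J → ℝ} (hy : ∀ j, 0 ≤ y j) {f : ℝ → ℝ} (hf : Continuous f) {q : ℝ}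
    (h : ∀ t, 0 ≤ t → f t ≤ 2 * (q * Real.exp (-(ls ν N * t))) ^ 2
      + 2 * (∑ j, y j * (rj ν n N j * Real.exp (-(rj ν n N j ^ 2 * t)))) ^ 2)
    {T : ℝ} (hT : 0 ≤ T) (hnm : 0 ≤ nm) :
    ∫ t in (0 : ℝ)..T, f t
      ≤ 2 * q ^ 2 / ν / N + (∑ j, y j ^ 2 + 2 * (nm / N) * (∑ j, y j) ^ 2) := by
  have hNr : (0 : ℝ) < N := by exact_mod_cast hN
  have hls := ls_ge hν hN
  have hls0 : 0 < ls ν N := lt_of_lt_of_le (by positivity) hls
  have c1 : Continuous fun t : ℝ => 2 * (q * Real.exp (-(ls ν N * t))) ^ 2 := by fun_prop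
  have c2 : Continuous fun t : ℝ =>
      2 * (∑ j, y j * (rj ν n N j * Real.exp (-(rj ν n N j ^ 2 * t)))) ^ 2 := by fun_prop
  refine (intervalIntegral.integral_mono_on hT (hf.intervalIntegrable _ _)
    ((c1.add c2).intervalIntegrable _ _) fun t ht => h t ht.1).trans ?_
  simp only [Pi.add_apply]
  rw [intervalIntegral.integral_add (c1.intervalIntegrable _ _) (c2.intervalIntegrable _ _)]
  refine add_le_add ?_ ?_
  · have e : ∀ t : ℝ, 2 * (q * Real.exp (-(ls ν N * t))) ^ 2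
        = 2 * q ^ 2 * Real.exp (-(2 * ls ν N * t)) := by
      intro t
      have : Real.exp (-(2 * ls ν N * t)) = Real.exp (-(ls ν N * t)) ^ 2 := by
        rw [← Real.exp_nat_mul]
        congr 1
        push_cast
        ring
      rw [this]
      ring
    simp_rw [e]
    rw [intervalIntegral.integral_const_mul]
    have h1 := int_exp_le (μ := 2 * ls ν N) (by positivity) hT
    have h2 : 1 / (2 * ls ν N) ≤ 1 / (ν * N) :=
      one_div_le_one_div_of_le (by positivity) (by linarith)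
    calc 2 * q ^ 2 * ∫ t in (0 : ℝ)..T, Real.exp (-(2 * ls ν N * t))
        ≤ 2 * q ^ 2 * (1 / (ν * N)) :=
          mul_le_mul_of_nonneg_left (h1.trans h2) (by positivity)
      _ = _ := by
          rw [div_div]
          ring
  · rw [intervalIntegral.integral_const_mul]
    have h1 := quad (ι := Fin J) (a := y) (r := fun j => rj ν n N j) (κ := nm / N) hy
      (fun j => rj_pos D hν hN j) (fun i j hij => rj_ratio D hν hN hij) (by positivity) hT
    calc 2 * ∫ t in (0 : ℝ)..T,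
          (∑ j, y j * (rj ν n N j * Real.exp (-(rj ν n N j ^ 2 * t)))) ^ 2
        ≤ 2 * (1 / 2 * ∑ j, y j ^ 2 + nm / N * (∑ j, y j) ^ 2) :=
          mul_le_mul_of_nonneg_left h1 (by norm_num)
      _ = _ := by ring

end

/-! ### The comparison function -/

section
variable {J : ℕ} (ν : ℝ) (n : Fin J → K3) (s : Fin J → Cf) (N : ℕ)

/-- The function which dominates the heat flow of the waves. -/
noncomputable def hh (r : ℝ) : ℝ := ∑ j, 16 * Real.sqrt ν * N0 (s j)
  * ((Real.pi * len (Mj N j • n j)) * Real.exp (-((Real.pi * len (Mj N j • n j)) ^ 2 * r)))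

variable {ν n s N}

theorem hh_cont : Continuous (hh ν n s N) := by
  unfold hh
  fun_prop

variable {P : Finset K3} {z' : Cf} {Λ nm : ℝ}
variable (D : Dat n s P z' Λ nm) (hν : 0 < ν) (hN : 0 < N)
include D hν hN

theorem hh_int {T : ℝ} (hT : 0 ≤ T) (hnm : 0 ≤ nm) :
    ∫ r in (0 : ℝ)..T, hh ν n s N r ^ 2
      ≤ 128 * ν * ∑ j, N0 (s j) ^ 2 + nm / N * (16 * Real.sqrt ν * ∑ j, N0 (s j)) ^ 2 := by
  have hNr : (0 : ℝ) < N := by exact_mod_cast hN
  have hpi := Real.pi_pos
  have hsν := Real.sqrt_pos.2 hν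
  have hlp : ∀ j, 0 < len (Mj N j • n j) := fun j => lt_of_lt_of_le hNr (lm_ge' D hN j)
  have hk : ∀ i j, i ≠ j → (Real.pi * len (Mj N i • n i)) * (Real.pi * len (Mj N j • n j))
      / ((Real.pi * len (Mj N i • n i)) ^ 2 + (Real.pi * len (Mj N j • n j)) ^ 2)
        ≤ nm / N := by
    intro i j hij
    have h1 := rj_ratio D hν hN hij
    refine le_trans (le_of_eq ?_) h1
    have hi := hlp i
    have hj := hlp j
    rw [rj, rj]
    rw [div_eq_div_iff (by positivity) (by positivity)]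
    ring
  have h1 := quad (ι := Fin J) (a := fun j => 16 * Real.sqrt ν * N0 (s j))
    (r := fun j => Real.pi * len (Mj N j • n j)) (κ := nm / N)
    (fun j => by have := N0_nonneg (s j); positivity)
    (fun j => mul_pos hpi (hlp j)) hk (by positivity) hT
  refine le_trans (le_of_eq rfl) (h1.trans (le_of_eq ?_))
  have e1 : ∀ j, (16 * Real.sqrt ν * N0 (s j)) ^ 2 = 256 * ν * N0 (s j) ^ 2 := by
    intro j
    rw [mul_pow, mul_pow, Real.sq_sqrt hν.le]
    ring
  simp_rw [e1]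
  rw [← Finset.mul_sum, ← Finset.mul_sum]
  ring

end

section
variable {J : ℕ} {ν : ℝ} {n : Fin J → K3} {s : Fin J → Cf} {N K : ℕ}

theorem hh_le (hν : 0 < ν) (hK : 2 ≤ K) (hJ : 0 < J) {r : ℝ} (hr : 0 < r) :
    hh ν (nn n N) (ss s N) K r
      ≤ (96 * Real.sqrt ν * (∑ j, N0 (s j)) / Real.sqrt N) / Real.sqrt r := by
  have hsr := Real.sqrt_pos.2 hr
  have hpi := Real.pi_pos
  rw [le_div_iff₀ hsr]
  have h1 := lac_sum (N := N) (n := n) (s := s) hK hJ (φ := fun y => y * Real.exp (-(1 * y ^ 2)))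
    (fun y hy => (fe1 le_rfl hy).1) (fun y hy => (fe1 le_rfl hy).2)
    (x := Real.pi * Real.sqrt r) (by positivity)
  have e : hh ν (nn n N) (ss s N) K r * Real.sqrt r
      = 16 * Real.sqrt ν * ∑ i, N0 (ss s N i)
        * ((Real.pi * Real.sqrt r * len (Mj K i • nn n N i))
          * Real.exp (-(1 * (Real.pi * Real.sqrt r * len (Mj K i • nn n N i)) ^ 2))) := by
    rw [hh, Finset.sum_mul, Finset.mul_sum]
    refine Finset.sum_congr rfl fun i _ => ?_
    have h2 : 1 * (Real.pi * Real.sqrt r * len (Mj K i • nn n N i)) ^ 2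
        = (Real.pi * len (Mj K i • nn n N i)) ^ 2 * r := by
      rw [mul_pow, mul_pow, Real.sq_sqrt hr.le]
      ring
    rw [h2]
    ring
  rw [e]
  calc 16 * Real.sqrt ν * _ ≤ 16 * Real.sqrt ν * (6 * (∑ j, N0 (s j)) / Real.sqrt N) :=
        mul_le_mul_of_nonneg_left h1 (by positivity)
    _ = _ := by ring

variable {P : Finset K3} {Λ nm : ℝ}

/-- The sum norm of the field. -/
theorem N0_bd (D : Dat (nn n N) (ss s N) P 0 Λ nm) (hν : 0 < ν) (hK : 2 ≤ K) (hJ : 0 < J)
    {t : ℝ} (ht : 0 < t) :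
    N0 (lo ν (nn n N) (ss s N) 0 K t) + N0 (hi ν (nn n N) (ss s N) K t)
      ≤ (Q0 (ss s N) 0 / Real.sqrt ν / Real.sqrt K
        + 96 * Real.pi * (∑ j, N0 (s j)) / Real.sqrt N) / Real.sqrt t := by
  have hK0 : 0 < K := by omega
  have hKr : (0 : ℝ) < K := by exact_mod_cast hK0
  have hpi := Real.pi_pos
  have hst := Real.sqrt_pos.2 ht
  have hsν := Real.sqrt_pos.2 hν
  have hsK := Real.sqrt_pos.2 hKr
  have hQ0 : 0 ≤ Q0 (ss s N) 0 := Q0_nonneg
  have hls := ls_ge hν hK0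
  have hls0 : 0 < ls ν K := lt_of_lt_of_le (by positivity) hls
  rw [le_div_iff₀ hst, add_mul]
  refine add_le_add ?_ ?_
  · have h1 := N0_lo D hν hK0 ht.le
    have h2 : Real.exp (-(ls ν K * t)) * Real.sqrt t ≤ 1 / (Real.sqrt ν * Real.sqrt K) := by
      have h3 := y_exp (y := Real.sqrt (ls ν K) * Real.sqrt t)
      have h4 : (Real.sqrt (ls ν K) * Real.sqrt t) ^ 2 = ls ν K * t := by
        rw [mul_pow, Real.sq_sqrt hls0.le, Real.sq_sqrt ht.le]
      rw [h4] at h3
      have h5 : Real.sqrt ν * Real.sqrt K ≤ Real.sqrt (ls ν K) := by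
        rw [← Real.sqrt_mul hν.le]
        exact Real.sqrt_le_sqrt hls
      rw [le_div_iff₀ (by positivity)]
      calc Real.exp (-(ls ν K * t)) * Real.sqrt t * (Real.sqrt ν * Real.sqrt K)
          ≤ Real.exp (-(ls ν K * t)) * Real.sqrt t * Real.sqrt (ls ν K) :=
            mul_le_mul_of_nonneg_left h5 (mul_nonneg (Real.exp_pos _).le hst.le)
        _ = Real.sqrt (ls ν K) * Real.sqrt t * Real.exp (-(ls ν K * t)) := by ring
        _ ≤ 1 := h3
    calc N0 (lo ν (nn n N) (ss s N) 0 K t) * Real.sqrt t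
        ≤ (Q0 (ss s N) 0 * Real.exp (-(ls ν K * t))) * Real.sqrt t :=
          mul_le_mul_of_nonneg_right h1 hst.le
      _ = Q0 (ss s N) 0 * (Real.exp (-(ls ν K * t)) * Real.sqrt t) := by ring
      _ ≤ Q0 (ss s N) 0 * (1 / (Real.sqrt ν * Real.sqrt K)) :=
          mul_le_mul_of_nonneg_left h2 hQ0
      _ = _ := by
          rw [div_div]
          ring
  · have h1 := N0_hi D hν hK0 t
    have h2 := lac_sum (N := N) (n := n) (s := s) hK hJ
      (φ := fun y => y * Real.exp (-(4 * Real.pi ^ 2 * y ^ 2)))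
      (fun y hy => (fe1 (by nlinarith [Real.pi_gt_three]) hy).1)
      (fun y hy => (fe1 (by nlinarith [Real.pi_gt_three]) hy).2)
      (x := Real.sqrt ν * Real.sqrt t) (by positivity)
    have e : (∑ j, am ν (nn n N) K t j * (8 * N0 (ss s N j))) * Real.sqrt t
        = 16 * Real.pi * ∑ i, N0 (ss s N i)
          * ((Real.sqrt ν * Real.sqrt t * len (Mj K i • nn n N i))
            * Real.exp (-(4 * Real.pi ^ 2
              * (Real.sqrt ν * Real.sqrt t * len (Mj K i • nn n N i)) ^ 2))) := by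
      rw [Finset.sum_mul, Finset.mul_sum]
      refine Finset.sum_congr rfl fun i _ => ?_
      have h3 : 4 * Real.pi ^ 2 * (Real.sqrt ν * Real.sqrt t * len (Mj K i • nn n N i)) ^ 2
          = (2 * Real.pi * Real.sqrt ν * len (Mj K i • nn n N i)) ^ 2 * t := by
        rw [mul_pow, mul_pow, mul_pow, mul_pow, mul_pow, Real.sq_sqrt ht.le,
          Real.sq_sqrt hν.le]
        ring
      rw [h3, am, rj]
      ring
    refine (mul_le_mul_of_nonneg_right h1 hst.le).trans ?_
    rw [e]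
    calc 16 * Real.pi * _ ≤ 16 * Real.pi * (6 * (∑ j, N0 (s j)) / Real.sqrt N) :=
          mul_le_mul_of_nonneg_left h2 (by positivity)
      _ = _ := by ring

/-- The weighted sum norm of the field. -/
theorem Yb_bd (D : Dat (nn n N) (ss s N) P 0 Λ nm) (hν : 0 < ν) (hK : 2 ≤ K) (hKΛ : 2 * Λ ≤ K)
    (hJ : 0 < J) (B : Finset K3) {t : ℝ} (ht : 0 < t) :
    Yb B (lo ν (nn n N) (ss s N) 0 K t + hi ν (nn n N) (ss s N) K t)
      ≤ (Q1 (ss s N) 0 / ν / K
        + 192 * Real.pi * (∑ j, N0 (s j)) / Real.sqrt ν / Real.sqrt N) / t := by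
  have hK0 : 0 < K := by omega
  have hKr : (0 : ℝ) < K := by exact_mod_cast hK0
  have hpi := Real.pi_pos
  have hst := Real.sqrt_pos.2 ht
  have hsν := Real.sqrt_pos.2 hν
  have hQ1 : 0 ≤ Q1 (ss s N) 0 := Q1_nonneg
  have hls := ls_ge hν hK0
  have hls0 : 0 < ls ν K := lt_of_lt_of_le (by positivity) hls
  rw [le_div_iff₀ ht]
  refine (mul_le_mul_of_nonneg_right (Yb_add B _ _) ht.le).trans ?_
  rw [add_mul]
  have q1 : Yb B (lo ν (nn n N) (ss s N) 0 K t) * t ≤ Q1 (ss s N) 0 / ν / K := by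
    have h1 := Yb_lo D hν hK0 B ht.le
    have h2 : Real.exp (-(ls ν K * t)) * t ≤ 1 / (ν * K) := by
      have h3 := x_exp (x := ls ν K * t)
      rw [le_div_iff₀ (by positivity)]
      calc Real.exp (-(ls ν K * t)) * t * (ν * K)
          ≤ Real.exp (-(ls ν K * t)) * t * ls ν K :=
            mul_le_mul_of_nonneg_left hls (mul_nonneg (Real.exp_pos _).le ht.le)
        _ = ls ν K * t * Real.exp (-(ls ν K * t)) := by ring
        _ ≤ 1 := h3
    calc Yb B (lo ν (nn n N) (ss s N) 0 K t) * t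
        ≤ (Real.exp (-(ls ν K * t)) * Q1 (ss s N) 0) * t :=
          mul_le_mul_of_nonneg_right h1 ht.le
      _ = Q1 (ss s N) 0 * (Real.exp (-(ls ν K * t)) * t) := by ring
      _ ≤ Q1 (ss s N) 0 * (1 / (ν * K)) := mul_le_mul_of_nonneg_left h2 hQ1
      _ = _ := by
          rw [div_div]
          ring
  have q2 : Yb B (hi ν (nn n N) (ss s N) K t) * t
      ≤ 192 * Real.pi * (∑ j, N0 (s j)) / Real.sqrt ν / Real.sqrt N := by
    have h1 := Yb_hi D hν hK0 hKΛ B t
    have h2 := lac_sum (N := N) (n := n) (s := s) hK hJ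
      (φ := fun y => y ^ 2 * Real.exp (-(4 * Real.pi ^ 2 * y ^ 2)))
      (fun y hy => (fe2 (by nlinarith [Real.pi_gt_three]) hy).1)
      (fun y hy => (fe2 (by nlinarith [Real.pi_gt_three]) hy).2)
      (x := Real.sqrt ν * Real.sqrt t) (by positivity)
    have e : (∑ j, am ν (nn n N) K t j * (16 * len (Mj K j • nn n N j) * N0 (ss s N j))) * t
        = 32 * Real.pi / Real.sqrt ν * ∑ i, N0 (ss s N i)
          * ((Real.sqrt ν * Real.sqrt t * len (Mj K i • nn n N i)) ^ 2
            * Real.exp (-(4 * Real.pi ^ 2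
              * (Real.sqrt ν * Real.sqrt t * len (Mj K i • nn n N i)) ^ 2))) := by
      rw [Finset.sum_mul, Finset.mul_sum]
      refine Finset.sum_congr rfl fun i _ => ?_
      have h3 : 4 * Real.pi ^ 2 * (Real.sqrt ν * Real.sqrt t * len (Mj K i • nn n N i)) ^ 2
          = (2 * Real.pi * Real.sqrt ν * len (Mj K i • nn n N i)) ^ 2 * t := by
        rw [mul_pow, mul_pow, mul_pow, mul_pow, mul_pow, Real.sq_sqrt ht.le,
          Real.sq_sqrt hν.le]
        ring
      have h4 : (Real.sqrt ν * Real.sqrt t * len (Mj K i • nn n N i)) ^ 2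
          = Real.sqrt ν * Real.sqrt ν * t * len (Mj K i • nn n N i) ^ 2 := by
        rw [mul_pow, mul_pow, Real.sq_sqrt ht.le]
        ring
      rw [h3, am, rj, h4]
      field_simp
      ring
    refine (mul_le_mul_of_nonneg_right h1 ht.le).trans ?_
    rw [e]
    calc 32 * Real.pi / Real.sqrt ν * _
        ≤ 32 * Real.pi / Real.sqrt ν * (6 * (∑ j, N0 (s j)) / Real.sqrt N) :=
          mul_le_mul_of_nonneg_left h2 (by positivity)
      _ = _ := by ring
  have q3 := add_le_add q1 q2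
  have e3 : (Q1 (ss s N) 0 / ν / K
      + 192 * Real.pi * (∑ j, N0 (s j)) / Real.sqrt ν / Real.sqrt N)
      = Q1 (ss s N) 0 / ν / K
      + 192 * Real.pi * (∑ j, N0 (s j)) / Real.sqrt ν / Real.sqrt N := rfl
  linarith

end

end Pool.Agent.Run7.h969.WS
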