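import Pool.Agent.Run7.h969.WS.Lac
import Pool.Agent.Run7.h782.WS.Defs

/-!
Layers of waves.
-/

set_option autoImplicit false

open MeasureTheory Set Filter Topology
open scoped ContDiff ComplexConjugate NNReal

namespace Pool.Agent.Run7.h969.WS

open H459R3.NS Pool.Agent.Run7.h782 Pool.Agent.Run7.h782.GD Pool.Agent.Run7.h782.GS
open Pool.Agent.Run7.h969.GG

section
variable {J : ℕ} (n : Fin J → K3) (s : Fin J → Cf) (N : ℕ)

/-- The directions of the layers. -/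
def nn (i : Fin (N * J)) : K3 := n (finProdFinEquiv.symm i).2

/-- The profiles of the layers. -/
noncomputable def ss (i : Fin (N * J)) : Cf :=
  ((1 / Real.sqrt N : ℝ) : ℂ) • s (finProdFinEquiv.symm i).2

/-- The frequencies of the layers. -/
noncomputable def LL (K : ℕ) (j : Fin J) (l : ℕ) : ℝ := (K : ℝ) ^ ((j : ℕ) + J * l + 1) * len (n j)

variable {n s N}

theorem sum_fp {M : Type*} [AddCommMonoid M] (F : Fin (N * J) → M) :
    ∑ i, F i = ∑ l : Fin N, ∑ j : Fin J, F (finProdFinEquiv (l, j)) := by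
  rw [← Equiv.sum_comp finProdFinEquiv F, Fintype.sum_prod_type]

theorem nn_fp (l : Fin N) (j : Fin J) : nn n N (finProdFinEquiv (l, j)) = n j := by
  rw [nn, Equiv.symm_apply_apply]

theorem ss_fp (l : Fin N) (j : Fin J) :
    ss s N (finProdFinEquiv (l, j)) = ((1 / Real.sqrt N : ℝ) : ℂ) • s j := by
  rw [ss, Equiv.symm_apply_apply]

theorem Mj_fp (K : ℕ) (l : Fin N) (j : Fin J) :
    Mj K (finProdFinEquiv (l, j)) = K ^ ((j : ℕ) + J * l + 1) := by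
  rw [Mj, finProdFinEquiv_apply_val]

theorem len_fp (K : ℕ) (l : Fin N) (j : Fin J) :
    len (Mj K (finProdFinEquiv (l, j)) • nn n N (finProdFinEquiv (l, j))) = LL n K j l := by
  rw [len_nsmul, Mj_fp, nn_fp, LL]
  push_cast
  rfl

theorem N0_ss (i : Fin (N * J)) :
    N0 (ss s N i) = 1 / Real.sqrt N * N0 (s (finProdFinEquiv.symm i).2) := by
  rw [ss, N0_smul, abs_of_nonneg (by positivity)]

theorem sum_N0_sq (hN : 0 < N) : ∑ i : Fin (N * J), N0 (ss s N i) ^ 2 = ∑ j, N0 (s j) ^ 2 := by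
  have hNr : (0 : ℝ) < N := by exact_mod_cast hN
  rw [sum_fp]
  have h1 : ∀ (l : Fin N) (j : Fin J), N0 (ss s N (finProdFinEquiv (l, j))) ^ 2
      = 1 / N * N0 (s j) ^ 2 := by
    intro l j
    rw [N0_ss, Equiv.symm_apply_apply, mul_pow, div_pow, Real.sq_sqrt hNr.le, one_pow]
  simp_rw [h1]
  rw [Finset.sum_const, Finset.card_univ, Fintype.card_fin, nsmul_eq_mul, ← Finset.mul_sum]
  field_simp

theorem qq_ss (i : Fin (N * J)) :
    qq (ss s N) i = ((1 / N : ℝ) : ℂ) • nl (s (finProdFinEquiv.symm i).2)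
      (s (finProdFinEquiv.symm i).2) := by
  rw [qq, ss, nl_smul_left, nl_smul_right, smul_smul, ← Complex.ofReal_mul]
  congr 2
  have hNr : (0 : ℝ) ≤ N := Nat.cast_nonneg N
  rw [div_mul_div_comm, one_mul, Real.mul_self_sqrt hNr]

theorem sum_qq (hN : 0 < N) : ∑ i : Fin (N * J), qq (ss s N) i = ∑ j, nl (s j) (s j) := by
  have hNr : (0 : ℝ) < N := by exact_mod_cast hN
  rw [sum_fp]
  have h1 : ∀ (l : Fin N) (j : Fin J), qq (ss s N) (finProdFinEquiv (l, j))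
      = ((1 / N : ℝ) : ℂ) • nl (s j) (s j) := by
    intro l j
    rw [qq_ss, Equiv.symm_apply_apply]
  simp_rw [h1]
  rw [Finset.sum_const, Finset.card_univ, Fintype.card_fin, ← Finset.smul_sum,
    ← Nat.cast_smul_eq_nsmul ℂ, smul_smul]
  have hNc : (N : ℂ) ≠ 0 := Nat.cast_ne_zero.2 hN.ne'
  have h2 : (N : ℂ) * ((1 / N : ℝ) : ℂ) = 1 := by
    push_cast
    field_simp
  rw [h2, one_smul]

theorem LL_nonneg (K : ℕ) (j : Fin J) (l : ℕ) : 0 ≤ LL n K j l :=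
  mul_nonneg (by positivity) (len_nonneg _)

theorem LL_double {K : ℕ} (hK : 2 ≤ K) (hJ : 0 < J) (j : Fin J) (l : ℕ) :
    2 * LL n K j l ≤ LL n K j (l + 1) := by
  have hKr : (2 : ℝ) ≤ K := by exact_mod_cast hK
  have h1 : (2 : ℝ) ≤ (K : ℝ) ^ J := hKr.trans (le_self_pow₀ (by linarith) hJ.ne')
  have h2 : LL n K j (l + 1) = (K : ℝ) ^ J * LL n K j l := by
    unfold LL
    ring
  rw [h2]
  exact mul_le_mul_of_nonneg_right h1 (LL_nonneg K j l)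

/-- Lacunary sums over the layers. -/
theorem lac_sum {K : ℕ} (hK : 2 ≤ K) (hJ : 0 < J) {φ : ℝ → ℝ} (h1 : ∀ y, 0 ≤ y → φ y ≤ y)
    (h2 : ∀ y, 0 ≤ y → φ y * y ≤ 1) {x : ℝ} (hx : 0 ≤ x) :
    ∑ i : Fin (N * J), N0 (ss s N i) * φ (x * len (Mj K i • nn n N i))
      ≤ 6 * (∑ j, N0 (s j)) / Real.sqrt N := by
  rw [sum_fp]
  have e : ∀ (l : Fin N) (j : Fin J), N0 (ss s N (finProdFinEquiv (l, j)))
      * φ (x * len (Mj K (finProdFinEquiv (l, j)) • nn n N (finProdFinEquiv (l, j))))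
      = 1 / Real.sqrt N * (N0 (s j) * φ (x * LL n K j l)) := by
    intro l j
    rw [N0_ss, Equiv.symm_apply_apply, len_fp]
    ring
  simp_rw [e]
  rw [Finset.sum_comm]
  have h3 : ∀ j : Fin J, ∑ l : Fin N, 1 / Real.sqrt N * (N0 (s j) * φ (x * LL n K j l))
      ≤ 1 / Real.sqrt N * (N0 (s j) * 6) := by
    intro j
    rw [← Finset.mul_sum, ← Finset.mul_sum]
    refine mul_le_mul_of_nonneg_left (mul_le_mul_of_nonneg_left ?_ (N0_nonneg _)) (by positivity)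
    rw [Fin.sum_univ_eq_sum_range fun l => φ (x * LL n K j l)]
    have hy : ∀ l, 0 ≤ x * LL n K j l := fun l => mul_nonneg hx (LL_nonneg K j l)
    refine lac (y := fun l => x * LL n K j l) hy (fun l => ?_) (fun l => h1 _ (hy l))
      (fun l => h2 _ (hy l)) N
    have := mul_le_mul_of_nonneg_left (LL_double (n := n) hK hJ j l) hx
    linarith
  refine (Finset.sum_le_sum fun j _ => h3 j).trans (le_of_eq ?_)
  rw [← Finset.mul_sum, ← Finset.sum_mul]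
  ring

end

section
variable {J : ℕ} {n : Fin J → K3} {s : Fin J → Cf} {P : Finset K3} {Λ nm : ℝ} {N : ℕ}

/-- The data of the layers. -/
theorem dat_layers (hn0 : ∀ j, n j ≠ 0) (hsP : ∀ j, ∀ p ∉ P, s j p = 0)
    (hkd : ∀ j p, kd (n j) (s j p) = 0) (hΛ0 : 0 ≤ Λ) (hΛ1 : ∀ p ∈ P, len p ≤ Λ)
    (hnm : ∀ j, len (n j) ≤ nm) : Dat (nn n N) (ss s N) P 0 Λ nm where
  n0 := fun i => hn0 _
  sP := fun i p hp => by rw [ss, Pi.smul_apply, hsP _ p hp, smul_zero]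
  zP := fun k _ => rfl
  kdn := fun i p => by rw [ss, Pi.smul_apply, kd_smul, nn, hkd, mul_zero]
  Λ0 := hΛ0
  Λ1 := hΛ1
  nm1 := fun i => hnm _

end

/-! ### Bounds of one family of waves -/

section
variable {J : ℕ} {ν : ℝ} {n : Fin J → K3} {s : Fin J → Cf} {P : Finset K3} {z' : Cf}
  {Λ nm : ℝ} {N : ℕ}
variable (D : Dat n s P z' Λ nm) (hν : 0 < ν) (hN : 0 < N) (hNΛ : 2 * Λ ≤ N)
include D hN hNΛ

theorem ht_ww {r : ℝ} (hr : 0 ≤ r) (j : Fin J) (k : K3) :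
    ht r k * ‖ww n s N j k‖
      ≤ Real.exp (-((Real.pi * len (Mj N j • n j)) ^ 2 * r)) * ‖ww n s N j k‖ := by
  by_cases hk : ww n s N j k = 0
  · rw [hk]
    simp
  refine mul_le_mul_of_nonneg_right ?_ (norm_nonneg _)
  have hM : 2 * Λ ≤ (Mj N j : ℝ) := hNΛ.trans (by exact_mod_cast Mj_ge hN j)
  have h1 := wv_ge (D.n0 j) (D.sP j) D.Λ1 hM hk
  have h2 := len_nonneg (Mj N j • n j)
  rw [ht]
  refine Real.exp_le_exp.2 ?_
  have h3 : (len (Mj N j • n j) / 2) ^ 2 ≤ len k ^ 2 := pow_le_pow_left₀ (by positivity) h1 2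
  rw [len_sq] at h3
  have h4 : (Real.pi * len (Mj N j • n j)) ^ 2
      = 4 * Real.pi ^ 2 * (len (Mj N j • n j) / 2) ^ 2 := by ring
  have h5 : (Real.pi * len (Mj N j • n j)) ^ 2 * r ≤ 4 * Real.pi ^ 2 * GD.sq k * r := by
    rw [h4]
    exact mul_le_mul_of_nonneg_right (mul_le_mul_of_nonneg_left h3 (by positivity)) hr
  linarith

theorem sum_ht_ww (B : Finset K3) {r : ℝ} (hr : 0 ≤ r) (j : Fin J) :
    ∑ k ∈ B, ht r k * ‖ww n s N j k‖
      ≤ Real.exp (-((Real.pi * len (Mj N j • n j)) ^ 2 * r)) * (8 * N0 (s j)) := by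
  calc ∑ k ∈ B, ht r k * ‖ww n s N j k‖
      ≤ ∑ k ∈ B, Real.exp (-((Real.pi * len (Mj N j • n j)) ^ 2 * r)) * ‖ww n s N j k‖ :=
        Finset.sum_le_sum fun k _ => ht_ww D hN hNΛ hr j k
    _ = Real.exp (-((Real.pi * len (Mj N j • n j)) ^ 2 * r)) * ∑ k ∈ B, ‖ww n s N j k‖ := by
        rw [Finset.mul_sum]
    _ ≤ _ := mul_le_mul_of_nonneg_left ((sum_le_N0' (lw D j) B).trans (N0ww D j))
        (Real.exp_pos _).le

end

/-- The squares of the waves. -/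
theorem wv_l2 {s : Cf} {P : Finset K3} (hP : ∀ p ∉ P, s p = 0) (N : ℕ) (n : K3)
    (B : Finset K3) : ∑ k ∈ B, ‖wv N n s k‖ ^ 2 ≤ 64 * ∑ p ∈ P, ‖s p‖ ^ 2 := by
  have h1 : ∀ k, ‖wv N n s k‖ ^ 2 ≤ 32 * ‖s (k - N • n)‖ ^ 2 + 32 * ‖s (k + N • n)‖ ^ 2 := by
    intro k
    have h2 : ‖wv N n s k‖ ≤ 4 * ‖s (k - N • n)‖ + 4 * ‖s (k + N • n)‖ := by
      rw [wv]
      exact (norm_add_le _ _).trans (add_le_add (norm_prj_le _ _) (norm_prj_le _ _))
    have h3 := norm_nonneg (wv N n s k)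
    have h4 : ‖wv N n s k‖ ^ 2 ≤ (4 * ‖s (k - N • n)‖ + 4 * ‖s (k + N • n)‖) ^ 2 :=
      pow_le_pow_left₀ h3 h2 2
    nlinarith [sq_nonneg (‖s (k - N • n)‖ - ‖s (k + N • n)‖)]
  have hss : Summable fun k => ‖s k‖ ^ 2 :=
    summable_of_ne_finset_zero (s := P) fun k hk => by rw [hP k hk]; simp
  have hts : ∑' k, ‖s k‖ ^ 2 = ∑ p ∈ P, ‖s p‖ ^ 2 :=
    tsum_eq_sum fun k hk => by rw [hP k hk]; simp
  have h5 : ∀ m : K3, ∑ k ∈ B, ‖s (k - m)‖ ^ 2 ≤ ∑ p ∈ P, ‖s p‖ ^ 2 := by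
    intro m
    have h6 : Summable fun k => ‖s (k - m)‖ ^ 2 := (Equiv.subRight m).summable_iff.2 hss
    refine (h6.sum_le_tsum B fun k _ => sq_nonneg _).trans (le_of_eq ?_)
    rw [← hts]
    exact (Equiv.subRight m).tsum_eq fun k => ‖s k‖ ^ 2
  have h6 := h5 (N • n)
  have h7 := h5 (-(N • n))
  simp only [sub_neg_eq_add] at h7
  calc ∑ k ∈ B, ‖wv N n s k‖ ^ 2
      ≤ ∑ k ∈ B, (32 * ‖s (k - N • n)‖ ^ 2 + 32 * ‖s (k + N • n)‖ ^ 2) :=
        Finset.sum_le_sum fun k _ => h1 k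
    _ = 32 * ∑ k ∈ B, ‖s (k - N • n)‖ ^ 2 + 32 * ∑ k ∈ B, ‖s (k + N • n)‖ ^ 2 := by
        rw [Finset.sum_add_distrib, Finset.mul_sum, Finset.mul_sum]
    _ ≤ _ := by linarith

/-- Squares of sums of vectors. -/
theorem sq_sum_le {ι : Type*} [Fintype ι] (B : Finset K3) {c : ι → ℝ} {w : ι → Cf}
    {y : ι → ℝ} (hc : ∀ i, 0 ≤ c i) (hy0 : ∀ i, 0 ≤ y i)
    (hy : ∀ i, ∑ k ∈ B, ‖w i k‖ ^ 2 ≤ y i ^ 2) :
    ∑ k ∈ B, ‖(∑ i, ((c i : ℝ) : ℂ) • w i) k‖ ^ 2 ≤ (∑ i, c i * y i) ^ 2 := by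
  have h1 : ∀ k, ‖(∑ i, ((c i : ℝ) : ℂ) • w i) k‖ ≤ ∑ i, c i * ‖w i k‖ := by
    intro k
    rw [Finset.sum_apply]
    refine (norm_sum_le _ _).trans (Finset.sum_le_sum fun i _ => ?_)
    rw [Pi.smul_apply, norm_smul, Complex.norm_real, Real.norm_of_nonneg (hc i)]
  have h2 : ∀ i j, ∑ k ∈ B, ‖w i k‖ * ‖w j k‖ ≤ y i * y j := by
    intro i j
    have h3 := Finset.sum_mul_sq_le_sq_mul_sq B (fun k => ‖w i k‖) (fun k => ‖w j k‖)
    have h4 : (∑ k ∈ B, ‖w i k‖ * ‖w j k‖) ^ 2 ≤ (y i * y j) ^ 2 := by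
      rw [mul_pow]
      exact h3.trans (mul_le_mul (hy i) (hy j) (Finset.sum_nonneg fun k _ => sq_nonneg _)
        (sq_nonneg _))
    exact le_of_sq_le_sq h4 (mul_nonneg (hy0 i) (hy0 j))
  calc ∑ k ∈ B, ‖(∑ i, ((c i : ℝ) : ℂ) • w i) k‖ ^ 2
      ≤ ∑ k ∈ B, (∑ i, c i * ‖w i k‖) ^ 2 :=
        Finset.sum_le_sum fun k _ => pow_le_pow_left₀ (norm_nonneg _) (h1 k) 2
    _ = ∑ i, ∑ j, c i * c j * ∑ k ∈ B, ‖w i k‖ * ‖w j k‖ := by
        simp_rw [pow_two, Finset.sum_mul_sum, Finset.mul_sum]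
        rw [Finset.sum_comm]
        refine Finset.sum_congr rfl fun i _ => ?_
        rw [Finset.sum_comm]
        refine Finset.sum_congr rfl fun j _ => Finset.sum_congr rfl fun k _ => ?_
        ring
    _ ≤ ∑ i, ∑ j, c i * c j * (y i * y j) :=
        Finset.sum_le_sum fun i _ => Finset.sum_le_sum fun j _ =>
          mul_le_mul_of_nonneg_left (h2 i j) (mul_nonneg (hc i) (hc j))
    _ = (∑ i, c i * y i) ^ 2 := by
        rw [pow_two, Finset.sum_mul_sum]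
        exact Finset.sum_congr rfl fun i _ => Finset.sum_congr rfl fun j _ => by ring

end Pool.Agent.Run7.h969.WS
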