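import Pool.Agent.Run7.h969.GG.Fin3

/-!
Lacunary sums.
-/

set_option autoImplicit false

open MeasureTheory Set Filter Topology

namespace Pool.Agent.Run7.h969.WS

open H459R3.NS Pool.Agent.Run7.h782 Pool.Agent.Run7.h782.GD Pool.Agent.Run7.h782.GS
open Pool.Agent.Run7.h969.GG

/-- The bounded increasing function. -/
noncomputable def Ps (y : ℝ) : ℝ := y / (1 + y)

theorem Ps_mono {x y : ℝ} (hx : 0 ≤ x) (h : x ≤ y) : Ps x ≤ Ps y := by
  unfold Ps
  rw [div_le_div_iff₀ (by linarith) (by linarith)]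
  nlinarith

theorem Ps_le {y : ℝ} (hy : 0 ≤ y) : Ps y ≤ 1 := by
  unfold Ps
  rw [div_le_one (by linarith)]
  linarith

theorem Ps_nonneg {y : ℝ} (hy : 0 ≤ y) : 0 ≤ Ps y := by
  unfold Ps
  positivity

theorem Ps_step {y f : ℝ} (hy : 0 ≤ y) (h1 : f ≤ y) (h2 : f * y ≤ 1) :
    f ≤ 6 * (Ps (2 * y) - Ps y) := by
  have e : Ps (2 * y) - Ps y = y / ((1 + 2 * y) * (1 + y)) := by
    unfold Ps
    rw [div_sub_div _ _ (by positivity) (by positivity)]
    congr 1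
    ring
  rw [e, ← mul_div_assoc, le_div_iff₀ (by positivity)]
  rcases le_total y 1 with h | h
  · nlinarith
  · nlinarith

theorem lac {y f : ℕ → ℝ} (hy : ∀ l, 0 ≤ y l) (h2 : ∀ l, 2 * y l ≤ y (l + 1))
    (h3 : ∀ l, f l ≤ y l) (h4 : ∀ l, f l * y l ≤ 1) (N : ℕ) :
    ∑ l ∈ Finset.range N, f l ≤ 6 := by
  have key : ∀ N, ∑ l ∈ Finset.range N, f l ≤ 6 * Ps (y N) := by
    intro N
    induction N with
    | zero => simpa using Ps_nonneg (hy 0)
    | succ N ih =>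
      rw [Finset.sum_range_succ]
      have h5 := Ps_step (hy N) (h3 N) (h4 N)
      have h6 := Ps_mono (by have := hy N; linarith : (0 : ℝ) ≤ 2 * y N) (h2 N)
      linarith
  have := Ps_le (hy N)
  linarith [key N]

/-- `y e^{-a y²}` for `a ≥ 1`. -/
theorem fe1 {a y : ℝ} (ha : 1 ≤ a) (hy : 0 ≤ y) :
    y * Real.exp (-(a * y ^ 2)) ≤ y ∧ y * Real.exp (-(a * y ^ 2)) * y ≤ 1 := by
  have h1 : Real.exp (-(a * y ^ 2)) ≤ 1 := Real.exp_le_one_iff.2 (by nlinarith [sq_nonneg y])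
  refine ⟨mul_le_of_le_one_right hy h1, ?_⟩
  have h2 := Real.add_one_le_exp (a * y ^ 2)
  have h3 : Real.exp (-(a * y ^ 2)) * Real.exp (a * y ^ 2) = 1 := by
    rw [← Real.exp_add, neg_add_cancel, Real.exp_zero]
  have h4 := Real.exp_pos (-(a * y ^ 2))
  have h5 : y ^ 2 ≤ Real.exp (a * y ^ 2) := by nlinarith [sq_nonneg y]
  calc y * Real.exp (-(a * y ^ 2)) * y = Real.exp (-(a * y ^ 2)) * y ^ 2 := by ring
    _ ≤ Real.exp (-(a * y ^ 2)) * Real.exp (a * y ^ 2) := mul_le_mul_of_nonneg_left h5 h4.le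
    _ = 1 := h3

/-- `y² e^{-a y²}` for `a ≥ 2`. -/
theorem fe2 {a y : ℝ} (ha : 2 ≤ a) (hy : 0 ≤ y) :
    y ^ 2 * Real.exp (-(a * y ^ 2)) ≤ y ∧ y ^ 2 * Real.exp (-(a * y ^ 2)) * y ≤ 1 := by
  have hy2 := sq_nonneg y
  have h3 : Real.exp (-(a * y ^ 2)) * Real.exp (a * y ^ 2) = 1 := by
    rw [← Real.exp_add, neg_add_cancel, Real.exp_zero]
  have h4 := Real.exp_pos (-(a * y ^ 2))
  have hq : 1 + a * y ^ 2 + (a * y ^ 2) ^ 2 / 2 ≤ Real.exp (a * y ^ 2) :=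
    Real.quadratic_le_exp_of_nonneg (by positivity)
  have h5 : 1 + 2 * y ^ 2 + 2 * y ^ 4 ≤ Real.exp (a * y ^ 2) := by
    have h6 : 2 * y ^ 2 ≤ a * y ^ 2 := mul_le_mul_of_nonneg_right ha hy2
    nlinarith [sq_nonneg (a * y ^ 2), mul_nonneg hy2 hy2]
  have h7 : y ≤ Real.exp (a * y ^ 2) := by nlinarith [sq_nonneg (y - 1), mul_nonneg hy2 hy2]
  have h8 : y ^ 3 ≤ Real.exp (a * y ^ 2) := by
    nlinarith [sq_nonneg (y - 1), mul_nonneg hy2 hy2, mul_nonneg hy hy2,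
      sq_nonneg (y ^ 2 - y), mul_nonneg hy (sq_nonneg (y - 1))]
  constructor
  · calc y ^ 2 * Real.exp (-(a * y ^ 2)) = y * (Real.exp (-(a * y ^ 2)) * y) := by ring
      _ ≤ y * (Real.exp (-(a * y ^ 2)) * Real.exp (a * y ^ 2)) :=
          mul_le_mul_of_nonneg_left (mul_le_mul_of_nonneg_left h7 h4.le) hy
      _ = y := by rw [h3, mul_one]
  · calc y ^ 2 * Real.exp (-(a * y ^ 2)) * y = Real.exp (-(a * y ^ 2)) * y ^ 3 := by ring
      _ ≤ Real.exp (-(a * y ^ 2)) * Real.exp (a * y ^ 2) := mul_le_mul_of_nonneg_left h8 h4.le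
      _ = 1 := h3

/-- Squares of lacunary sums of exponentials. -/
theorem quad {ι : Type*} [Fintype ι] [DecidableEq ι] {a r : ι → ℝ} {κ : ℝ} (ha : ∀ i, 0 ≤ a i)
    (hr : ∀ i, 0 < r i) (hκ : ∀ i j, i ≠ j → r i * r j / (r i ^ 2 + r j ^ 2) ≤ κ) (hκ0 : 0 ≤ κ)
    {T : ℝ} (hT : 0 ≤ T) :
    ∫ t in (0 : ℝ)..T, (∑ i, a i * (r i * Real.exp (-(r i ^ 2 * t)))) ^ 2
      ≤ 1 / 2 * ∑ i, a i ^ 2 + κ * (∑ i, a i) ^ 2 := by
  have e1 : ∀ t, (∑ i, a i * (r i * Real.exp (-(r i ^ 2 * t)))) ^ 2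
      = ge (fun p : ι × ι => a p.1 * a p.2 * (r p.1 * r p.2))
        (fun p : ι × ι => r p.1 ^ 2 + r p.2 ^ 2) t := by
    intro t
    rw [ge, Fintype.sum_prod_type, pow_two, Finset.sum_mul_sum]
    refine Finset.sum_congr rfl fun i _ => Finset.sum_congr rfl fun j _ => ?_
    have : Real.exp (-((r i ^ 2 + r j ^ 2) * t))
        = Real.exp (-(r i ^ 2 * t)) * Real.exp (-(r j ^ 2 * t)) := by
      rw [← Real.exp_add]
      congr 1
      ring
    rw [this]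
    ring
  simp_rw [e1]
  refine (ge_int (fun p => ?_) (fun p => ?_) hT).trans ?_
  · have := ha p.1
    have := ha p.2
    have := hr p.1
    have := hr p.2
    positivity
  · have := hr p.1
    have := hr p.2
    positivity
  rw [Fintype.sum_prod_type]
  have e2 : ∀ i, ∑ j, a i * a j * (r i * r j) / (r i ^ 2 + r j ^ 2)
      ≤ 1 / 2 * a i ^ 2 + κ * (a i * ∑ j, a j) := by
    intro i
    rw [← Finset.add_sum_erase _ _ (Finset.mem_univ i)]
    have h1 : a i * a i * (r i * r i) / (r i ^ 2 + r i ^ 2) = 1 / 2 * a i ^ 2 := by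
      have := hr i
      field_simp
      ring
    rw [h1]
    refine add_le_add le_rfl ?_
    have h2 : ∑ j ∈ Finset.univ.erase i, a i * a j * (r i * r j) / (r i ^ 2 + r j ^ 2)
        ≤ ∑ j ∈ Finset.univ.erase i, κ * (a i * a j) := by
      refine Finset.sum_le_sum fun j hj => ?_
      have hij : i ≠ j := fun h => (Finset.mem_erase.1 hj).1 h.symm
      rw [mul_div_assoc, mul_comm κ]
      exact mul_le_mul_of_nonneg_left (hκ i j hij) (mul_nonneg (ha i) (ha j))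
    refine h2.trans ?_
    rw [Finset.mul_sum, Finset.mul_sum]
    exact Finset.sum_le_sum_of_subset_of_nonneg (Finset.erase_subset _ _) fun j _ _ =>
      mul_nonneg hκ0 (mul_nonneg (ha i) (ha j))
  refine (Finset.sum_le_sum fun i _ => e2 i).trans (le_of_eq ?_)
  rw [Finset.sum_add_distrib, ← Finset.mul_sum, ← Finset.mul_sum, ← Finset.sum_mul, pow_two]

end Pool.Agent.Run7.h969.WS
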