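import Pool.Agent.Run7.h969.WS.IterG
import Pool.Agent.Run7.h811.WS.InitG
import Pool.Agent.Run7.h744.WS.RoughAll

/-!
Weak solutions for rough data which are smooth for positive times, with an arbitrary gauge: the
assembly.
-/

set_option autoImplicit false

namespace Pool.Agent.Run7.h969.WS

theorem stmIterG : StmIterG :=
  iterG Pool.Agent.Run7.h744.WS.stmStepW
    (Pool.Agent.Run7.h308.GS.stmLim Pool.Agent.Run7.h744.GS.stmSmooth) Pool.Agent.Run7.h744.WS.stmAl

theorem stmInitG : StmInitG :=
  Pool.Agent.Run7.h811.WS.initG stmIterG Pool.Agent.Run7.h969.GD.stmTg'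
    Pool.Agent.Run7.h308.GS.stmPhys2

/-- The sharp form. -/
theorem stmSharp : StmSharp :=
  sharp stmInitG Pool.Agent.Run7.h980.WS.pairH Pool.Agent.Run7.h811.WS.wkH

end Pool.Agent.Run7.h969.WS
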