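import Pool.Agent.Run7.h969.WS.Gau
import Pool.Agent.Run7.h744.WS.IterH

/-!
One step of the iteration, with a gauge.
-/

set_option autoImplicit false

open MeasureTheory Set Filter Topology
open scoped ENNReal

namespace Pool.Agent.Run7.h969.WS

open H459R3.NS Pool.Agent.Run7.h782 Pool.Agent.Run7.h782.GD Pool.Agent.Run7.h782.GS
open Pool.Agent.Run7.h782.WS Pool.Agent.Run7.h744.WS Pool.Agent.Run7.h969.GS
open Pool.Agent.Run7 Pool.Agent.Run7.h308.WS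

/-- From a bound of finite sums to extended values. -/
theorem Fb_of_le {x y e : K3 → ℝ} {g : ℝ} {s : ℝ} (hs : 0 < s) (hx : ∀ k, 0 ≤ x k)
    (hy : ∀ k, 0 ≤ y k) (he : ∀ k, 0 ≤ e k) (hys : Summable y) (hes : Summable e) (hg0 : 0 ≤ g)
    (hee : ∀ A : Finset K3,
      ∑ k ∈ A, GS.ht s k * x k ≤ (∑' k, GS.ht s k * y k) + g + ∑' k, GS.ht s k * e k) :
    Fb (fun k => ENNReal.ofReal (x k)) s ≤ Fb (fun k => ENNReal.ofReal (y k)) s
      + ENNReal.ofReal (Real.sqrt s) * ENNReal.ofReal g + Fb (fun k => ENNReal.ofReal (e k)) s := by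
  have hs1 : Summable fun k => GS.ht s k * y k :=
    Summable.of_nonneg_of_le (fun k => mul_nonneg (h744.GS.ht_pos s k).le (hy k))
      (fun k => mul_le_of_le_one_left (hy k) (ht_one hs.le k)) hys
  have hs2 : Summable fun k => GS.ht s k * e k :=
    Summable.of_nonneg_of_le (fun k => mul_nonneg (h744.GS.ht_pos s k).le (he k))
      (fun k => mul_le_of_le_one_left (he k) (ht_one hs.le k)) hes
  have h1 : ∑' k, ENNReal.ofReal (GS.ht s k) * ENNReal.ofReal (x k)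
      ≤ (∑' k, ENNReal.ofReal (GS.ht s k) * ENNReal.ofReal (y k))
        + ENNReal.ofReal g + ∑' k, ENNReal.ofReal (GS.ht s k) * ENNReal.ofReal (e k) := by
    have e1 : ∀ c : K3 → ℝ, ∀ k, ENNReal.ofReal (GS.ht s k) * ENNReal.ofReal (c k)
        = ENNReal.ofReal (GS.ht s k * c k) := fun c k =>
      (ENNReal.ofReal_mul (h744.GS.ht_pos s k).le).symm
    simp_rw [e1]
    rw [← ENNReal.ofReal_tsum_of_nonneg (fun k => mul_nonneg (h744.GS.ht_pos s k).le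
      (hy k)) hs1, ← ENNReal.ofReal_tsum_of_nonneg (fun k =>
        mul_nonneg (h744.GS.ht_pos s k).le (he k)) hs2,
      ← ENNReal.ofReal_add (tsum_nonneg fun k =>
        mul_nonneg (h744.GS.ht_pos s k).le (hy k)) hg0,
      ← ENNReal.ofReal_add (add_nonneg (tsum_nonneg fun k =>
        mul_nonneg (h744.GS.ht_pos s k).le (hy k)) hg0)
        (tsum_nonneg fun k => mul_nonneg (h744.GS.ht_pos s k).le (he k))]
    refine ENNReal.summable.tsum_le_of_sum_le fun A => ?_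
    rw [← ENNReal.ofReal_sum_of_nonneg fun k _ =>
      mul_nonneg (h744.GS.ht_pos s k).le (hx k)]
    exact ENNReal.ofReal_le_ofReal (hee A)
  rw [Fb, Fb, Fb]
  calc _ ≤ ENNReal.ofReal (Real.sqrt s) * ((∑' k,
        ENNReal.ofReal (GS.ht s k) * ENNReal.ofReal (y k))
        + ENNReal.ofReal g + ∑' k, ENNReal.ofReal (GS.ht s k) * ENNReal.ofReal (e k)) :=
        mul_le_mul' le_rfl h1
    _ = _ := by ring

theorem sq_fac {t : ℝ} (ht : 0 < t) (x : ℝ≥0∞) :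
    (ENNReal.ofReal (Real.sqrt t) * x) ^ (2 : ℝ) / ENNReal.ofReal t = x ^ (2 : ℝ) := by
  have hst : 0 < Real.sqrt t := Real.sqrt_pos.2 ht
  have h4 : ENNReal.ofReal t ≠ 0 := by
    rw [ne_eq, ENNReal.ofReal_eq_zero, not_le]
    exact ht
  rw [ENNReal.mul_rpow_of_nonneg _ _ (by norm_num),
    ENNReal.ofReal_rpow_of_nonneg hst.le (by norm_num), Real.rpow_two, Real.sq_sqrt ht.le,
    mul_comm, mul_div_assoc, ENNReal.div_self h4 ENNReal.ofReal_ne_top, mul_one]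

theorem sq_dss {g : ℝ → ℝ} (hg : Continuous g) (hg0 : ∀ s, 0 ≤ g s) {H : ℝ}
    (hH : ∀ T, 0 ≤ T → ∫ s in (0 : ℝ)..T, g s ^ 2 ≤ H) :
    ∫⁻ s, (ENNReal.ofReal (Real.sqrt s) * ENNReal.ofReal (g s)) ^ (2 : ℝ) ∂dss
      ≤ ENNReal.ofReal H := by
  have hm1 : Measurable fun s : ℝ => (ENNReal.ofReal (Real.sqrt s) * ENNReal.ofReal (g s))
      ^ (2 : ℝ) :=
    ((ENNReal.measurable_ofReal.comp Real.continuous_sqrt.measurable).mul
      (ENNReal.measurable_ofReal.comp hg.measurable)).pow_const _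
  rw [lintegral_dss hm1]
  have hint : IntegrableOn (fun s => g s ^ 2) (Ioi 0) := by
    refine integrableOn_Ioi_of_intervalIntegral_norm_bounded (l := atTop) (b := fun n : ℝ => n)
      H 0 (fun i => ?_) tendsto_id ?_
    · exact ((hg.pow 2).integrableOn_Icc (a := 0) (b := i)).mono_set Ioc_subset_Icc_self
    · filter_upwards [eventually_ge_atTop (0 : ℝ)] with T hT
      have : ∀ s, ‖g s ^ 2‖ = g s ^ 2 := fun s => by
        rw [Real.norm_eq_abs, abs_of_nonneg (sq_nonneg _)]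
      simp_rw [this]
      exact hH T hT
  have hIH : ∫ s in Ioi (0 : ℝ), g s ^ 2 ≤ H := by
    refine le_of_tendsto (intervalIntegral_tendsto_integral_Ioi 0 hint tendsto_id) ?_
    filter_upwards [eventually_ge_atTop (0 : ℝ)] with T hT
    exact hH T hT
  have h1 : ∀ s ∈ Ioi (0 : ℝ), (ENNReal.ofReal (Real.sqrt s) * ENNReal.ofReal (g s)) ^ (2 : ℝ)
      / ENNReal.ofReal s = ENNReal.ofReal (g s ^ 2) := by
    intro s hs
    rw [sq_fac hs, ENNReal.ofReal_rpow_of_nonneg (hg0 s) (by norm_num), Real.rpow_two]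
  rw [setLIntegral_congr_fun measurableSet_Ioi h1,
    ← ofReal_integral_eq_lintegral_ofReal hint (Eventually.of_forall fun s => sq_nonneg _)]
  exact ENNReal.ofReal_le_ofReal hIH

theorem sq_mu1 {f : ℝ → ℝ≥0∞} (hf : AEMeasurable f (volume.restrict (Ioc (0 : ℝ) 1))) {H : ℝ}
    (hint : ∫⁻ t in Ioc (0 : ℝ) 1, f t ^ (2 : ℝ) ≤ ENNReal.ofReal H) :
    ∫⁻ t, (ENNReal.ofReal (Real.sqrt t) * f t) ^ (2 : ℝ) ∂mu1 ≤ ENNReal.ofReal H := by
  have hsm : Measurable fun t : ℝ => ENNReal.ofReal (Real.sqrt t) :=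
    ENNReal.measurable_ofReal.comp Real.continuous_sqrt.measurable
  have hm : AEMeasurable (fun t : ℝ => (ENNReal.ofReal (Real.sqrt t) * f t) ^ (2 : ℝ))
      (volume.restrict (Ioc (0 : ℝ) 1)) := (hsm.aemeasurable.mul hf).pow_const _
  rw [lintegral_mu1 hm]
  refine le_trans (le_of_eq ?_) hint
  exact setLIntegral_congr_fun measurableSet_Ioc fun t ht => sq_fac ht.1 _

/-- The additional conclusion of a step. -/
structure StpG (φ : ℝ → ℝ) (θ η M : ℝ) (U : ℝ → Cf) (z : Cf) (ε : ℝ) (a : ℝ → Cf) : Prop where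
  ex : ∃ X : ℝ → ℝ≥0∞, Measurable X ∧ (∀ s, 0 < s → X s ≤ ENNReal.ofReal ε) ∧
    ∫⁻ s, Ph φ (ENNReal.ofReal M * X s) ∂dss ≤ ENNReal.ofReal η ∧
    (∃ E : K3 → ℝ≥0∞, E 0 = 0 ∧ XE E ≤ ENNReal.ofReal θ ∧ ∀ s, 0 < s →
      Fb (fun k => ENNReal.ofReal ‖a 0 k - z k‖) s ≤ X s + Fb E s) ∧
    ∀ t, 0 ≤ t → ∃ E : K3 → ℝ≥0∞, E 0 = 0 ∧ XE E ≤ ENNReal.ofReal θ ∧ ∀ s, 0 < s →
      Fb (fun k => ENNReal.ofReal ‖a t k - U t k‖) s
        ≤ Fb (fun k => ENNReal.ofReal ‖z k - U 0 k‖) s + X s + Fb E s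
  time : ∫⁻ t, Ph φ (ENNReal.ofReal M * (ENNReal.ofReal (Real.sqrt t) * Sd (a t) (U t))) ∂mu1
    ≤ ENNReal.ofReal η

theorem XE_of {e : K3 → ℝ} (he : ∀ k, 0 ≤ e k) (hes : Summable e) {θ : ℝ}
    (hθ : ∑' k, e k / len k ≤ θ) : XE (fun k => ENNReal.ofReal (e k)) ≤ ENNReal.ofReal θ := by
  have hdiv : ∀ k, e k / len k ≤ e k := by
    intro k
    by_cases hk : k = 0
    · rw [hk, len_zero, div_zero]
      exact he 0
    · exact div_le_self (he k) (one_le_len hk)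
  have h0 : ∀ k, 0 ≤ e k / len k := fun k => div_nonneg (he k) (len_nonneg k)
  have hs : Summable fun k => e k / len k := Summable.of_nonneg_of_le h0 hdiv hes
  rw [XE]
  refine le_trans (le_of_eq ?_) (ENNReal.ofReal_le_ofReal hθ)
  rw [ENNReal.ofReal_tsum_of_nonneg h0 hs]
  refine tsum_congr fun k => ?_
  rw [← ENNReal.ofReal_mul (he k)]
  congr 1
  ring

/-- From `StmStepW`. -/
theorem stpg_of_step (hStep : StmStepW) : ∃ C₀ : ℝ, 0 < C₀ ∧ ∀ (ν : ℝ), 0 < ν → ∀ U : ℝ → Cf,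
    Tg ν U → ∀ (Z : Finset K3) (z : Cf), (0 : K3) ∉ Z → (∀ k ∉ Z, z k = 0) → Herm z → Dv z →
    ∀ θ : ℝ, 0 < θ → ∃ H : ℝ, 0 ≤ H ∧ ∀ φ : ℝ → ℝ, Gauge φ → ∀ M η : ℝ, 0 < M → 0 < η →
      ∀ᶠ ε in 𝓝[>] (0 : ℝ), ∃ a : ℝ → Cf, StpW C₀ θ H U ν z ε a ∧ StpG φ θ η M U z ε a := by
  obtain ⟨C₀, hC₀, H⟩ := hStep
  refine ⟨C₀, hC₀, fun ν hν U hU Z z hZ0 hz hh hd θ hθ => ?_⟩
  obtain ⟨H', hH'⟩ := H ν hν U hU Z z hZ0 hz hh hd θ hθ
  have hH0 : 0 ≤ H' := by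
    obtain ⟨h, a, -, -, -, -, -, h6, -⟩ := hH' 1 one_pos
    simpa using h6 0 le_rfl
  refine ⟨H', hH0, fun φ hφ M η hM hη => ?_⟩
  filter_upwards [stage hφ hM hη hH0, self_mem_nhdsWithin] with ε hstg hε
  have hε' : 0 < ε := hε
  obtain ⟨h, a, hcs, htg, hal, hcont, hle, hH, ⟨e, he0, hez, hes, heθ, hee⟩, hE, hpt, hI, hI2,
    hcl⟩ := hH' ε hε'
  have hsU : Summable fun k => ‖z k - U 0 k‖ := by
    have h1 : L1 (U 0) := Maj.l1 hU.maj le_rfl
    exact (L1.of_supp hz).sub h1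
  have hint := int_two (h969.GS.LSol.cnt htg.toLSol) (h969.GS.LSol.cnt hU.toLSol) hI
  refine ⟨a, ⟨hcs, htg, hal, fun q hq => ?_, fun q hq t ht => ?_, fun t ht => ?_, hint, ?_, hcl⟩,
    ⟨?_, ?_⟩⟩
  · have h1 := bN_of_le hq (x := fun k => ‖a 0 k - z k‖) (y := fun _ => 0) hε'.le
      (fun k => norm_nonneg _) (fun _ => le_rfl) he0 hez summable_zero hes heθ hcont hle hH
      (fun s hs A => by
        have h0 : ∑' k, GS.ht s k * (0 : ℝ) = 0 := by simp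
        show _ ≤ (∑' k, GS.ht s k * (0 : ℝ)) + h s + _
        rw [h0, zero_add]
        exact hee s hs A)
    have h2 : bN q (fun _ : K3 => ENNReal.ofReal 0) = 0 := by
      have : Fb (fun _ : K3 => ENNReal.ofReal 0) = fun _ => 0 := funext fun s => by simp [Fb]
      rw [bN, this]
      exact Nq_zero (by linarith)
    rw [h2, zero_add] at h1
    exact h1
  · obtain ⟨e, he0, hez, hes, heθ, hee⟩ := hE t ht
    exact bN_of_le hq (x := fun k => ‖a t k - U t k‖) (y := fun k => ‖z k - U 0 k‖) hε'.le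
      (fun k => norm_nonneg _) (fun k => norm_nonneg _) he0 hez hsU hes heθ hcont hle hH hee
  · exact Sd_le (hpt t ht)
  · exact int_sq2 (h969.GS.LSol.cnt htg.toLSol) (h969.GS.LSol.cnt hU.toLSol) hI2
  · set g : ℝ → ℝ := fun s => max (h s) 0 with hg
    have hgc : Continuous g := hcont.max continuous_const
    have hg0 : ∀ s, 0 ≤ g s := fun s => le_max_right _ _
    have hgh : ∀ s, h s ≤ g s := fun s => le_max_left _ _
    have hgle : ∀ s, 0 < s → g s ≤ ε / Real.sqrt s := fun s hs =>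
      max_le (hle s hs) (div_nonneg hε'.le (Real.sqrt_nonneg _))
    have hgH : ∀ T, 0 ≤ T → ∫ s in (0 : ℝ)..T, g s ^ 2 ≤ H' := fun T hT =>
      (intervalIntegral.integral_mono_on hT ((hgc.pow 2).intervalIntegrable _ _)
        ((hcont.pow 2).intervalIntegrable _ _) fun s _ => by
          rcases le_total (h s) 0 with h1 | h1
          · show max (h s) 0 ^ 2 ≤ h s ^ 2
            rw [max_eq_right h1]
            nlinarith [sq_nonneg (h s)]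
          · show max (h s) 0 ^ 2 ≤ h s ^ 2
            rw [max_eq_left h1]).trans (hH T hT)
    have hXle : ∀ s, 0 < s → ENNReal.ofReal (Real.sqrt s) * ENNReal.ofReal (g s)
        ≤ ENNReal.ofReal ε := by
      intro s hs
      have hss := Real.sqrt_pos.2 hs
      rw [← ENNReal.ofReal_mul hss.le]
      refine ENNReal.ofReal_le_ofReal ?_
      have h1 := hgle s hs
      rw [le_div_iff₀ hss] at h1
      linarith
    refine ⟨fun s => ENNReal.ofReal (Real.sqrt s) * ENNReal.ofReal (g s),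
      (ENNReal.measurable_ofReal.comp Real.continuous_sqrt.measurable).mul
        (ENNReal.measurable_ofReal.comp hgc.measurable), hXle, ?_, ?_, ?_⟩
    · exact hstg dss _ (dss_ae hXle) (sq_dss hgc hg0 hgH)
    · refine ⟨fun k => ENNReal.ofReal (e k), by simp [hez],
        XE_of he0 hes heθ, fun s hs => ?_⟩
      have h1 := Fb_of_le (x := fun k => ‖a 0 k - z k‖) (y := fun _ => 0) (e := e) (g := g s) hs
        (fun k => norm_nonneg _) (fun _ => le_rfl) he0 summable_zero hes (hg0 s) (fun A => by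
          have h0 : ∑' k, GS.ht s k * (0 : ℝ) = 0 := by simp
          rw [h0, zero_add]
          have := hee s hs.le A
          have := hgh s
          linarith)
      have h2 : Fb (fun _ : K3 => ENNReal.ofReal 0) s = 0 := by simp [Fb]
      rw [h2, zero_add] at h1
      exact h1
    · intro t ht
      obtain ⟨e, he0, hez, hes, heθ, hee⟩ := hE t ht
      refine ⟨fun k => ENNReal.ofReal (e k), by simp [hez],
        XE_of he0 hes heθ, fun s hs => ?_⟩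
      exact Fb_of_le (x := fun k => ‖a t k - U t k‖) (y := fun k => ‖z k - U 0 k‖) (e := e)
        (g := g s) hs (fun k => norm_nonneg _) (fun k => norm_nonneg _) he0 hsU hes (hg0 s)
        (fun A => by
          have := hee s hs.le A
          have := hgh s
          linarith)
  · refine hstg mu1 _ (mu1_ae fun t ht => ?_) (sq_mu1 ?_ hint)
    · have hss := Real.sqrt_pos.2 ht.1
      calc ENNReal.ofReal (Real.sqrt t) * Sd (a t) (U t)
          ≤ ENNReal.ofReal (Real.sqrt t) * ENNReal.ofReal (ε / Real.sqrt t) :=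
            mul_le_mul' le_rfl (Sd_le (hpt t ht.1))
        _ = ENNReal.ofReal ε := by
            rw [← ENNReal.ofReal_mul hss.le, mul_div_cancel₀ _ hss.ne']
    · exact Sd_meas (h969.GS.LSol.cnt htg.toLSol) (h969.GS.LSol.cnt hU.toLSol)

/-- The sequence. -/
theorem seqsG (hStep : StmStepW) : ∃ C₀ : ℝ, 0 < C₀ ∧ ∀ (ν : ℝ), 0 < ν → ∀ U : ℝ → Cf,
    Tg ν U → ∀ c : Cf, c 0 = 0 → h744.WS.Dat c → ∀ φ : ℝ → ℝ, Gauge φ → ∀ δ : ℝ, 0 < δ →
    ∃ (z : ℕ → Cf) (A : ℕ → ℝ → Cf) (ε H : ℕ → ℝ), A 0 = U ∧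
      (∀ n, L1 (z n)) ∧ (∀ n, Dv (z n)) ∧ (∀ n k, ‖c k - z n k‖ ≤ ‖c k‖) ∧
      (∀ n, ∑' k, ‖c k - z n k‖ ^ 2 / len k ^ 2 ≤ (1 / 4) ^ n) ∧
      ((Summable fun k => ‖c k‖) → ∀ n, ∑' k, ‖c k - z n k‖ ≤ (1 / 2) ^ n) ∧
      (∀ n, z n 0 = 0) ∧
      (∀ n, StpW C₀ ((1 / 2) ^ n) (H n) (A n) ν (z n) (ε n) (A (n + 1))) ∧
      (∀ n, StpG φ ((1 / 2) ^ n) ((1 / 2) ^ n) (12 * 2 ^ n) (A n) (z n) (ε n) (A (n + 1))) ∧
      (∀ n, 0 < ε n) ∧ (∀ n, ε n ≤ (1 / 2) ^ n) ∧ (∀ n, ε n ≤ δ * (1 / 2) ^ (n + 1)) ∧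
      Antitone ε ∧ (∀ n, 0 ≤ H n) := by
  obtain ⟨C₀, hC₀, H⟩ := stpg_of_step hStep
  refine ⟨C₀, hC₀, fun ν hν U hU c hc0 hc φ hφ δ hδ => ?_⟩
  have hz : ∀ n : ℕ, ∃ z : Cf, ∃ Z : Finset K3, (0 : K3) ∉ Z ∧ (∀ k ∉ Z, z k = 0) ∧ Herm z ∧
      Dv z ∧ (∀ k, ‖c k - z k‖ ≤ ‖c k‖) ∧ ∑' k, ‖c k - z k‖ ^ 2 / len k ^ 2 ≤ (1 / 4) ^ n ∧
      ((Summable fun k => ‖c k‖) → ∑' k, ‖c k - z k‖ ≤ (1 / 2) ^ n) := by
    intro n
    obtain ⟨Z, z, h⟩ := truncH hc0 hc (ε := (1 / 4 : ℝ) ^ n) (ε' := (1 / 2 : ℝ) ^ n)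
      (by positivity) (by positivity)
    exact ⟨z, Z, h⟩
  choose z Z hZ0 hzZ hzh hzd hzc hz2 hz1 using hz
  obtain ⟨f, hf0, hP, hR⟩ := exists_rec (X := (ℝ → Cf) × ℝ)
    (fun x => Tg ν x.1 ∧ 0 < x.2)
    (fun n x y => ∃ H' : ℝ, 0 ≤ H' ∧ StpW C₀ ((1 / 2) ^ n) H' x.1 ν (z n) y.2 y.1 ∧
      StpG φ ((1 / 2) ^ n) ((1 / 2) ^ n) (12 * 2 ^ n) x.1 (z n) y.2 y.1 ∧
      y.2 ≤ x.2 ∧ y.2 ≤ (1 / 2) ^ n ∧ y.2 ≤ δ * (1 / 2) ^ (n + 1))
    (U, 1) ⟨hU, one_pos⟩ (by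
      rintro n ⟨a, e⟩ ⟨ha, he⟩
      obtain ⟨H', hH0, hH'⟩ := H ν hν a ha (Z n) (z n) (hZ0 n) (hzZ n) (hzh n) (hzd n)
        ((1 / 2) ^ n) (by positivity)
      have e1 : ∀ᶠ ε in 𝓝[>] (0 : ℝ), 0 < ε := self_mem_nhdsWithin
      have e2 : ∀ κ : ℝ, 0 < κ → ∀ᶠ ε in 𝓝[>] (0 : ℝ), ε ≤ κ := fun κ hκ =>
        nhdsWithin_le_nhds (ge_mem_nhds hκ)
      obtain ⟨ε, h1, h2, h3, h4, b, hb, hb'⟩ := (e1.and ((e2 e he).and ((e2 ((1 / 2) ^ n)
        (by positivity)).and ((e2 (δ * (1 / 2) ^ (n + 1)) (by positivity)).and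
          (hH' φ hφ (12 * 2 ^ n) ((1 / 2) ^ n) (by positivity) (by positivity)))))).exists
      exact ⟨(b, ε), ⟨hb.tg, h1⟩, H', hH0, hb, hb', h2, h3, h4⟩)
  choose H' hH0 hst hsg h1 h2 h3 using hR
  refine ⟨z, fun n => (f n).1, fun n => (f (n + 1)).2, H', by simp [hf0],
    fun n => L1.of_supp (hzZ n), hzd, hzc, hz2, fun hs n => hz1 n hs,
    fun n => hzZ n 0 (hZ0 n), hst, hsg, fun n => (hP (n + 1)).2, h2, h3, ?_, hH0⟩
  exact antitone_nat_of_succ_le fun n => h1 (n + 1)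

end Pool.Agent.Run7.h969.WS
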